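import Mathlib
import Pool.Agent.H86.CMLib.W522.U.C7
import Pool.Agent.H86.CMLib.W522.U.C9
import Pool.Agent.H86.CMLib.W528.Tor.Defs

/-!
# The condition on the strongly irreducible subspaces used in the proof
-/

namespace Pool.Agent.W528.Odd

open Module Pool.Agent.H204R3.SP Pool.Agent.H204R3.GP Pool.Agent.W522.U

/-- Every Lie algebra of symplectic operators on `U` that is stable under a subgroup of finite
index and contains the restrictions of the operators that kill the Tate forms is the symplectic Lie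
algebra. -/
def CoreProp {K : Type} [Field K] {X : Type} [AddCommGroup X] [Module K X] {Γ : Type} [Group Γ]
    (R : Representation K Γ X) (χ : Γ →* K) (U : Submodule K X) : Prop :=
  ∀ (Δ : Subgroup Γ) (_ : Δ.FiniteIndex) (hUΔ : ∀ g ∈ Δ, ∀ u ∈ U, R g u ∈ U)
    (𝔥 : Submodule K (Module.End K U)) (ω : U →ₗ[K] U →ₗ[K] K), (∀ v, ω v v = 0) →
    (∀ u, (∀ v, ω v u = 0) → u = 0) →
    (∀ (g : Δ) u v, ω (resR R Δ U hUΔ g u) (resR R Δ U hUΔ g v) = χ g * ω u v) →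
    (∀ X ∈ 𝔥, ∀ Y ∈ 𝔥, X * Y - Y * X ∈ 𝔥) →
    (∀ g : Δ, ∀ X ∈ 𝔥, resR R Δ U hUΔ g * X * resR R Δ U hUΔ g⁻¹ ∈ 𝔥) →
    (∀ X ∈ 𝔥, ∀ u w, ω (X u) w + ω u (X w) = 0) →
    (∀ x₀ ∈ lieT R χ, ∃ Y ∈ 𝔥, ∀ u : U, ((Y u : U) : X) = x₀ u) →
    ∀ u v, SS ω u v ∈ 𝔥

end Pool.Agent.W528.Odd
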