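import Mathlib
import Pool.Agent.H86.CMLib.W522.U.C7
import Pool.Agent.H86.CMLib.W522.U.C9
import Pool.Agent.H86.CMLib.W528.Tor.Comp
import Pool.Agent.H86.CMLib.W528.Tor.Defs
import Pool.Agent.H86.CMLib.W528.Odd.DefsX
import Pool.Agent.H86.CMLib.W839.OT.HTFam

/-!
# The sum of the representatives, general form
-/

set_option linter.unusedSectionVars false

namespace Pool.Agent.W528.Odd

open Module Pool.Agent.H204R3.SP Pool.Agent.H204R3.GP Pool.Agent.W522.U Pool.Agent.W529.Ta
open Pool.Agent.W528.Tor (AltDual)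

noncomputable section

section nil

variable {K : Type} [Field K] [CharZero K]
  {I : Type} [DecidableEq I] {E : I → Type} [∀ i, AddCommGroup (E i)]
  [∀ i, Module K (E i)] [∀ i, FiniteDimensional K (E i)] {G : Type} [Group G]
  {r : ∀ i, Representation K G (E i)} {𝔥 : Submodule K (∀ i, Module.End K (E i))}

theorem nil_of_all (h𝔥 : LieFam r 𝔥) (i : I) (ω : E i →ₗ[K] E i →ₗ[K] K)
    (halt : ∀ v, ω v v = 0) (hnd : ∀ u, (∀ v, ω v u = 0) → u = 0)
    (hsp : ∀ X ∈ 𝔥, ∀ u v, ω (X i u) v + ω u (X i v) = 0)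
    (hall : ∀ u v, SS ω u v ∈ 𝔥.map (LinearMap.proj i))
    {N : ∀ i, Module.End K (E i)} (hN : N ∈ 𝔥) (hNN : ∀ j, N j * N j = 0) (hN0 : N i ≠ 0) :
    ∃ N' ∈ 𝔥, (∀ j, N' j * N' j = 0) ∧ ∃ (u : E i) (φ : Dual K (E i)),
      u ≠ 0 ∧ φ ≠ 0 ∧ N' i = φ.smulRight u := by
  have hanti := alt_anti halt
  obtain ⟨w, hw⟩ : ∃ w, N i w ≠ 0 := by
    by_contra hcon
    push Not at hcon
    exact hN0 (LinearMap.ext hcon)
  obtain ⟨Z, hZ, hZi⟩ := hall w w
  have hZi' : Z i = SS ω w w := hZi
  have hmem : (-(1 / 2 : K)) • brk N (brk N Z) ∈ 𝔥 :=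
    𝔥.smul_mem _ (h𝔥.br _ hN _ (h𝔥.br _ hN _ hZ))
  have heq : ∀ j, ((-(1 / 2 : K)) • brk N (brk N Z)) j = N j * Z j * N j := by
    intro j
    change (-(1 / 2 : K)) • (N j * (N j * Z j - Z j * N j) - (N j * Z j - Z j * N j) * N j) = _
    have h1 : N j * (N j * Z j - Z j * N j) - (N j * Z j - Z j * N j) * N j =
        (-2 : K) • (N j * Z j * N j) := by
      have h2 : N j * (N j * Z j - Z j * N j) - (N j * Z j - Z j * N j) * N j =
          (N j * N j) * Z j - N j * Z j * N j - N j * Z j * N j + Z j * (N j * N j) := by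
        noncomm_ring
      rw [h2, hNN, zero_mul, mul_zero, zero_sub, add_zero]
      module
    rw [h1, smul_smul]
    norm_num
  refine ⟨_, hmem, fun j => ?_, N i w, (-2 : K) • ω (N i w), hw, ?_, ?_⟩
  · rw [heq]
    have h1 : N j * Z j * N j * (N j * Z j * N j) = N j * Z j * (N j * N j) * (Z j * N j) := by
      noncomm_ring
    rw [h1, hNN, mul_zero, zero_mul]
  · intro h0
    apply hw
    apply hnd
    intro v
    have h1 := congrArg (fun f : Dual K (E i) => f v) h0
    simp only [LinearMap.smul_apply, smul_eq_mul, LinearMap.zero_apply] at h1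
    rw [hanti]
    have h2 : ω (N i w) v = 0 := (mul_eq_zero.1 h1).resolve_left (by norm_num)
    rw [h2, neg_zero]
  · rw [heq]
    refine LinearMap.ext fun v => ?_
    rw [Module.End.mul_apply, Module.End.mul_apply, hZi', SS_apply, LinearMap.smulRight_apply,
      LinearMap.smul_apply, map_add, map_smul, ← add_smul, smul_eq_mul]
    congr 1
    have h1 := hsp N hN w v
    linear_combination 2 * h1

end nil

variable {K : Type} [Field K] [CharZero K] {X : Type} [AddCommGroup X] [Module K X]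
  [FiniteDimensional K X]
  {Γ : Type} [Group Γ]

variable {R : Representation K Γ X} {χ : Γ →* K}
  (ω : X →ₗ[K] X →ₗ[K] K) (hnd : ∀ u, (∀ v, ω u v = 0) → u = 0)
  (hωR : ∀ g u v, ω (R g u) (R g v) = χ g * ω u v)
  (hR1 : ∀ U, SI R U → 2 ≤ finrank K U → ∃ γ : Γ, (R γ - 1) * (R γ - 1) = 0 ∧
    (finrank K (U.map (R γ - 1)) = 1 ∨ (U.map (R γ - 1) ≠ ⊥ ∧ AltDual R χ U ∧ CoreProp R χ U)))
  (hss : HasProj R)
  (hR2 : ∀ U, SI R U → finrank K U = 1 → ¬Du R χ U U)
  (hH : ∀ U U', SI R U → SI R U' → 2 ≤ finrank K U → ¬Du R χ U U → ∀ ψ : Γ → K, Tw R ψ U U' →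
    Tw R (fun _ => 1) U U')
  (hD : ∀ (s : ℕ) (U : Fin s → Submodule K X), (∀ i, SI R (U i)) →
    (∀ i j, ¬Du R χ (U i) (U j)) → (∀ i j, Tw R (fun _ => 1) (U i) (U j) → i = j) →
    ∀ Δ : Subgroup Γ, Δ.FiniteIndex → ∀ (h : ∀ g ∈ Δ, ∀ i, ∀ u ∈ U i, R g u ∈ U i)
      (a : Fin s → ℤ), (∀ (g : Γ) (hg : g ∈ Δ),
        ∏ i, (LinearMap.det ((R g).restrict (h g hg i)) ^ 2 / χ g ^ finrank K (U i)) ^ a i = 1) →
      a = 0)

include hnd hωR hR1 hR2 hH hD hss in
theorem main_E3 [IsAlgClosed K] {s : ℕ} (W : Fin s → Submodule K X) (hW : ∀ i, SI R (W i))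
    (hWW : ∀ i j, Tw R (fun _ => 1) (W i) (W j) → i = j)
    (st : Fin s → Fin s) (hst : ∀ i, st (st i) = i) (hDu : ∀ i, Du R χ (W i) (W (st i)))
    (hDu' : ∀ i j, Du R χ (W i) (W j) → j = st i) :
    ∃ (Δ : Subgroup Γ) (_ : Δ.FiniteIndex) (hWΔ : ∀ i, ∀ g ∈ Δ, ∀ u ∈ W i, R g u ∈ W i),
      ∀ (m : ℕ) (φ : MultilinearMap K (fun _ : Fin m × Fin 2 => ∀ i, W i) K),
        IsTate (piRep (fun i => resR R Δ (W i) (hWΔ i))) (χ.comp Δ.subtype) m φ →
        φ ∈ Submodule.span K (PT (piRep (fun i => resR R Δ (W i) (hWΔ i)))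
          (χ.comp Δ.subtype) m) := by
  classical
  choose D hDfi hDs using fun i => (hW i).2.1
  have hpos : ∀ i, 0 < finrank K (W i) := by
    intro i
    rw [Nat.pos_iff_ne_zero, ne_eq, Submodule.finrank_eq_zero]
    exact (hW i).1
  have hDuA : ∀ i, ∃ D' : Subgroup Γ, D'.FiniteIndex ∧ ∃ B : X →ₗ[K] X →ₗ[K] K,
      (∃ u ∈ W i, ∃ v ∈ W (st i), B u v ≠ 0) ∧
      (∀ g ∈ D', ∀ u ∈ W i, ∀ v ∈ W (st i), B (R g u) (R g v) = χ g * B u v) ∧
      (st i = i → ∀ u ∈ W i, B u u = 0) := by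
    intro i
    obtain ⟨D', hD', B, hB0, hB⟩ := hDu i
    by_cases hi : st i = i
    · rcases (show finrank K (W i) = 1 ∨ 2 ≤ finrank K (W i) by have := hpos i; omega)
        with h1 | h1
      · rw [hi] at hB hB0
        exact absurd ⟨D', hD', B, hB0, hB⟩ (hR2 _ (hW i) h1)
      · obtain ⟨γ, h2, hr | ⟨-, ⟨D2, hD2, B2, hB20, hB2a, hB2⟩, -⟩⟩ := hR1 _ (hW i) h1
        · refine ⟨D', hD', B, hB0, hB, fun _ => ?_⟩
          rw [hi] at hB hB0
          exact alt_of_unip (hW i) hD' B hB γ h2 (unip_chi' ω hnd hωR h2 hr) hr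
        · rw [hi]
          exact ⟨D2, hD2, B2, hB20, hB2, fun _ => hB2a⟩
    · exact ⟨D', hD', B, hB0, hB, fun h => absurd h hi⟩
  choose D' hD' B hB0 hB hBA using hDuA
  let Δ : Subgroup Γ := ⨅ i, D i ⊓ D' i
  have hΔ : Δ.FiniteIndex := Subgroup.finiteIndex_iInf (fun i => inferInstance)
  have hm : ∀ g ∈ Δ, ∀ i, g ∈ D i ∧ g ∈ D' i := fun g hg i => Subgroup.mem_iInf.1 hg i
  have hWΔ : ∀ i, ∀ g ∈ Δ, ∀ u ∈ W i, R g u ∈ W i := fun i g hg u hu => hDs i g (hm g hg i).1 u hu
  have hBalt : ∀ i, st i = i → ∀ u ∈ W i, B i u u = 0 := hBA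
  have hBl : ∀ i j, j = st i → ∀ u ∈ W i, (∀ v ∈ W j, B i u v = 0) → u = 0 := by
    rintro i _ rfl
    exact du_left (hW i) (hW _).2.1 (hD' i) (hB0 i) (hB i)
  have hBr : ∀ i j, j = st i → ∀ v ∈ W j, (∀ u ∈ W i, B i u v = 0) → v = 0 := by
    rintro i _ rfl
    exact du_right (hW i).2.1 (hW _) (hD' i) (hB0 i) (hB i)
  have hBs : ∀ i j, j = st i → ∀ g ∈ Δ, ∀ u ∈ W i, ∀ v ∈ W j,
      B i (R g u) (R g v) = χ g * B i u v := by
    rintro i _ rfl g hg
    exact hB i g (hm g hg i).2
  let r : ∀ i, Representation K Δ (W i) := fun i => resR R Δ (W i) (hWΔ i)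
  have hr : ∀ (i : Fin s) (g : Δ) (u : W i), ((r i g u : W i) : X) = R g.1 u := fun _ _ _ => rfl
  -- the conditions
  have hsim : ∀ (g : Δ) u v, pf W st B (piRep r g u) (piRep r g v) =
      (χ.comp Δ.subtype) g * pf W st B u v := by
    intro g u v
    rw [pf_apply, pf_apply, Finset.mul_sum]
    refine Finset.sum_congr rfl fun i _ => ?_
    rw [Finset.mul_sum]
    refine Finset.sum_congr rfl fun j _ => ?_
    rw [piRep_apply, piRep_apply, hr, hr]
    change _ = χ g.1 * _
    unfold cf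
    by_cases h : j = st i
    · rw [if_pos h]
      rcases lt_trichotomy i j with h1 | h1 | h1
      · rw [if_pos h1]
        exact hBs i j h g.1 g.2 _ (u i).2 _ (v j).2
      · rw [if_neg (not_lt.2 h1.ge), if_neg (not_lt.2 h1.le)]
        exact hBs i j h g.1 g.2 _ (u i).2 _ (v j).2
      · rw [if_neg (not_lt.2 h1.le), if_pos h1, LinearMap.neg_apply, LinearMap.neg_apply,
          LinearMap.neg_apply, LinearMap.neg_apply, LinearMap.flip_apply, LinearMap.flip_apply,
          hBs j i (by rw [h, hst]) g.1 g.2 _ (v j).2 _ (u i).2, mul_neg]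
    · rw [if_neg h, LinearMap.zero_apply, LinearMap.zero_apply, LinearMap.zero_apply,
        LinearMap.zero_apply, mul_zero]
  have hor : ∀ i j, j ≠ st i → ∀ (u : W i) (v : W j),
      pf W st B (Pi.single i u) (Pi.single j v) = 0 := by
    intro i j hij u v
    rw [pf_single]
    unfold cf
    rw [if_neg hij, LinearMap.zero_apply, LinearMap.zero_apply]
  have htw : ∀ i j, i ≠ j → 2 ≤ finrank K (W i) → 2 ≤ finrank K (W j) →
      ∀ (T : W i →ₗ[K] W j) (ψ : Δ → K), (∀ g u, T (r i g u) = ψ g • r j g (T u)) → T = 0 := by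
    intro i j hij hi hj T ψ hT
    by_contra hT0
    obtain ⟨p, hp⟩ := exists_pr (W i)
    let ψ' : Γ → K := fun g => if h : g ∈ Δ then ψ ⟨g, h⟩ else 1
    have htw : Tw R ψ' (W i) (W j) := by
      refine ⟨Δ, hΔ, (W j).subtype.comp (T.comp p), fun u _ => SetLike.coe_mem _, ?_, ?_⟩
      · by_contra hcon
        push Not at hcon
        apply hT0
        ext u
        have h1 := hcon u u.2
        rw [LinearMap.comp_apply, LinearMap.comp_apply, hp] at h1
        exact h1
      · intro g hg u hu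
        have h1 := hT ⟨g, hg⟩ ⟨u, hu⟩
        have h2 : p (R g u) = r i ⟨g, hg⟩ ⟨u, hu⟩ := hp (r i ⟨g, hg⟩ ⟨u, hu⟩)
        have h3 : p u = ⟨u, hu⟩ := hp ⟨u, hu⟩
        have h4 : ψ' g = ψ ⟨g, hg⟩ := dif_pos hg
        rw [LinearMap.comp_apply, LinearMap.comp_apply, LinearMap.comp_apply,
          LinearMap.comp_apply, h2, h3, h1, h4]
        rfl
    have h1 : Tw R (fun _ => 1) (W i) (W j) := by
      by_cases h2 : Du R χ (W i) (W i)
      · by_cases h3 : Du R χ (W j) (W j)
        · exact sp_twist (hW i) (hW j) h2 h3 htw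
        · have h4 := hH _ _ (hW j) (hW i) hj h3 _ (htw.symm (hW i) (hW j))
          exact h4.symm1 (hW j) (hW i)
      · exact hH _ _ (hW i) (hW j) hi h2 _ htw
    exact hij (hWW _ _ h1)
  have hirr : ∀ i, Irr (r i) := by
    intro i Δ' hΔ' U hU
    have h1 : Pot R (U.map (W i).subtype) := by
      refine ⟨Δ'.map Δ.subtype, fi_map hΔ Δ' hΔ', ?_⟩
      rintro _ ⟨g, hg, rfl⟩ _ ⟨u, hu, rfl⟩
      exact ⟨r i g u, hU g hg u hu, rfl⟩
    rcases (hW i).2.2 _ (Submodule.map_subtype_le _ _) h1 with h2 | h2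
    · left
      rw [eq_bot_iff]
      intro u hu
      have h3 : (u : X) ∈ U.map (W i).subtype := ⟨u, hu, rfl⟩
      rw [h2, Submodule.mem_bot] at h3
      rw [Submodule.mem_bot]
      exact Subtype.ext h3
    · right
      rw [eq_top_iff]
      intro u _
      have h3 : (u : X) ∈ U.map (W i).subtype := by
        rw [h2]
        exact u.2
      obtain ⟨u', hu', huu⟩ := h3
      have h4 : u' = u := Subtype.ext huu
      rw [← h4]
      exact hu'
  have hnil : ∀ i, 2 ≤ finrank K (W i) → ∃ N ∈ lieT (piRep r) (χ.comp Δ.subtype), N * N = 0 ∧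
      ∃ (u : W i) (φ : Dual K (W i)), u ≠ 0 ∧ φ ≠ 0 ∧ ∀ x, N (Pi.single i x) i = φ x • u := by
    intro i hi
    obtain ⟨γ, h2, hrk'⟩ := hR1 _ (hW i) hi
    rcases hrk' with hrk | ⟨hrk, halti, hcore⟩
    swap
    · have hχγ : χ γ = 1 := by
        obtain ⟨x, hx, hx0⟩ : ∃ x ∈ W i, (R γ - 1) x ≠ 0 := by
          by_contra hcon
          push Not at hcon
          apply hrk
          rw [eq_bot_iff]
          rintro _ ⟨x, hx, rfl⟩
          rw [Submodule.mem_bot]
          exact hcon x hx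
        exact unip_chi ω hnd hωR γ h2 hx0
      have hii : st i = i := by
        obtain ⟨D2, hD2, B2, hB20, -, hB2⟩ := halti
        exact (hDu' i i ⟨D2, hD2, B2, hB20, hB2⟩).symm
      have hfam := Pool.Agent.W839.OT.HTFam.main K X Γ R χ ω hnd hωR hss s W hW hWW Δ hΔ hWΔ
      have hall : ∀ u v, SS (par (pf W st B) i i) u v ∈
          (hh r (χ.comp Δ.subtype)).map (LinearMap.proj i) := by
        refine hcore Δ hΔ (hWΔ i) _ _ (fun v => pf_alt W st B hst hBalt _)
          (fun u hu => par_inj (pf W st B) (pf_nondeg W st B hst hBl hBr) st hor i i hii.symm (by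
            rw [map_zero]
            refine LinearMap.ext fun v => ?_
            have h4 := om_skew (pf W st B) (pf_alt W st B hst hBalt) (Pi.single i u) (Pi.single i v)
            rw [par_apply, h4, ← par_apply, hu, neg_zero, LinearMap.zero_apply]))
          (fun g u v => par_sim (pf W st B) hsim i i g u v) ?_ ?_ ?_ ?_
        · rintro _ ⟨X', hX', rfl⟩ _ ⟨Y', hY', rfl⟩
          exact ⟨brk X' Y', (lieFam_hh r (χ.comp Δ.subtype)).br X' hX' Y' hY', rfl⟩
        · rintro g _ ⟨X', hX', rfl⟩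
          exact ⟨_, (lieFam_hh r (χ.comp Δ.subtype)).conj g X' hX', rfl⟩
        · rintro _ ⟨X', hX', rfl⟩ u w
          have h4 := lieT_sp (piRep r) (χ.comp Δ.subtype) (pf W st B) hsim hX' (Pi.single i u)
            (Pi.single i w)
          rw [blk_single, blk_single] at h4
          exact h4
        · intro x₀ hx₀
          obtain ⟨Y', hY', hY'x⟩ := hfam x₀ hx₀
          exact ⟨Y' i, ⟨Y', hY', rfl⟩, fun u => hY'x i u⟩
      obtain ⟨N, hN, hNx⟩ := hfam (R γ - 1) (unip_lieT R χ γ h2 hχγ)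
      have hNN : ∀ j, N j * N j = 0 := by
        intro j
        refine LinearMap.ext fun x => ?_
        apply Subtype.ext
        rw [Module.End.mul_apply, hNx, hNx, ← Module.End.mul_apply, h2]
        rfl
      have hN0 : N i ≠ 0 := by
        intro h0
        apply hrk
        rw [eq_bot_iff]
        rintro _ ⟨x, hx, rfl⟩
        rw [Submodule.mem_bot]
        have h4 := hNx i ⟨x, hx⟩
        rw [h0, LinearMap.zero_apply] at h4
        exact h4.symm
      obtain ⟨N', hN', hN'2, u, φ, hu, hφ, hNφ⟩ := nil_of_all (lieFam_hh r (χ.comp Δ.subtype)) i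
        (par (pf W st B) i i) (fun v => pf_alt W st B hst hBalt _)
        (fun u hu => par_inj (pf W st B) (pf_nondeg W st B hst hBl hBr) st hor i i hii.symm (by
          rw [map_zero]
          refine LinearMap.ext fun v => ?_
          have h4 := om_skew (pf W st B) (pf_alt W st B hst hBalt) (Pi.single i u) (Pi.single i v)
          rw [par_apply, h4, ← par_apply, hu, neg_zero, LinearMap.zero_apply]))
        (fun X' hX' u v => by
          have h4 := lieT_sp (piRep r) (χ.comp Δ.subtype) (pf W st B) hsim hX' (Pi.single i u)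
            (Pi.single i v)
          rw [blk_single, blk_single] at h4
          exact h4) hall hN hNN hN0
      refine ⟨blk N', hN', ?_, u, φ, hu, hφ, fun x => ?_⟩
      · refine LinearMap.ext fun y => ?_
        funext j
        rw [Module.End.mul_apply, blk_apply, blk_apply, ← Module.End.mul_apply, hN'2]
        rfl
      · rw [blk_single, Pi.single_eq_same, hNφ, LinearMap.smulRight_apply]
    have hχγ : χ γ = 1 := unip_chi' ω hnd hωR h2 hrk
    obtain ⟨M, hM0, hM⟩ := exists_pow_mem Δ hΔ γ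
    have hMK : (M : K) ≠ 0 := Nat.cast_ne_zero.2 hM0
    let g : Δ := ⟨γ ^ M, hM⟩
    have hcoord : ∀ (y : ∀ i, W i) (j : Fin s), (((piRep r g - 1) y j : W j) : X) =
        (M : K) • (R γ - 1) (y j : X) := by
      intro y j
      rw [LinearMap.sub_apply, Pi.sub_apply, Submodule.coe_sub, piRep_apply, hr,
        Module.End.one_apply]
      change R (γ ^ M) _ - _ = _
      rw [unip_pow R γ h2, LinearMap.add_apply, LinearMap.smul_apply, Module.End.one_apply,
        add_sub_cancel_left]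
    have hsq : (piRep r g - 1) * (piRep r g - 1) = 0 := by
      refine LinearMap.ext fun y => ?_
      funext j
      apply Subtype.ext
      rw [Module.End.mul_apply, hcoord, hcoord, map_smul, ← Module.End.mul_apply, h2]
      simp
    refine ⟨piRep r g - 1, unip_lieT _ _ g hsq ?_, hsq, ?_⟩
    · change χ (γ ^ M) = 1
      rw [map_pow, hχγ, one_pow]
    · obtain ⟨⟨v, hv⟩, hv0, hspan⟩ := finrank_eq_one_iff'.1 hrk
      obtain ⟨x, hx, hxv⟩ := id hv
      have hst := unip_stable (hW i).2.1 γ h2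
      have hvW : v ∈ W i := by
        rw [← hxv]
        exact hst x hx
      have hv0' : (⟨v, hvW⟩ : W i) ≠ 0 := by
        intro h
        apply hv0
        have h3 : v = 0 := congrArg (fun w : W i => (w : X)) h
        exact Subtype.ext h3
      obtain ⟨f, hf⟩ : ∃ f : Dual K (W i), f ⟨v, hvW⟩ = 1 := by
        obtain ⟨f, hf⟩ : ∃ f : Dual K (W i), f ⟨v, hvW⟩ ≠ 0 := by
          by_contra h
          push Not at h
          exact hv0' ((Module.forall_dual_apply_eq_zero_iff K _).1 h)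
        exact ⟨(f ⟨v, hvW⟩)⁻¹ • f, by
          rw [LinearMap.smul_apply, smul_eq_mul, inv_mul_cancel₀ hf]⟩
      have hN : ∀ y : W i, (R γ - 1) (y : X) = f ⟨(R γ - 1) y, hst y y.2⟩ • v := by
        intro y
        obtain ⟨c, hc⟩ := hspan ⟨(R γ - 1) y, Submodule.mem_map_of_mem y.2⟩
        have h6 : c • v = (R γ - 1) (y : X) := congrArg Subtype.val hc
        have h7 : (⟨(R γ - 1) y, hst y y.2⟩ : W i) = c • ⟨v, hvW⟩ := Subtype.ext h6.symm
        rw [h7, map_smul, hf, smul_eq_mul, mul_one, h6]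
      refine ⟨⟨v, hvW⟩, (M : K) • f.comp ((R γ - 1).restrict hst), hv0', ?_, ?_⟩
      · intro h
        have h1 := congrArg (fun φ : Dual K (W i) => φ ⟨x, hx⟩) h
        have h3 : (R γ - 1).restrict hst ⟨x, hx⟩ = ⟨v, hvW⟩ := Subtype.ext hxv
        rw [LinearMap.smul_apply, LinearMap.comp_apply, h3, hf, LinearMap.zero_apply, smul_eq_mul,
          mul_one] at h1
        exact hMK h1
      · intro y
        apply Subtype.ext
        rw [hcoord, Pi.single_eq_same, LinearMap.smul_apply, LinearMap.comp_apply,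
          Submodule.coe_smul, smul_eq_mul, mul_smul]
        congr 1
        exact hN y
  have hdet : ∀ a : Fin s → ℤ, (∀ i, a (st i) = -a i) →
      (∀ g : Δ, ∏ i, LinearMap.det (r i g) ^ a i = 1) → a = 0 := by
    intro a ha hag
    let eqv := (Fintype.equivFin {i // i < st i}).symm
    have h1 := hD (Fintype.card {i // i < st i}) (fun l => W (eqv l).1) (fun l => hW _)
      (fun l l' h => by
        have h2 := hDu' _ _ h
        have h3 := (eqv l).2
        have h4 := (eqv l').2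
        rw [h2, hst] at h4
        exact lt_asymm h3 h4)
      (fun l l' h => eqv.injective (Subtype.ext (hWW _ _ h)))
      Δ hΔ (fun g hg l u hu => hWΔ _ g hg u hu) (fun l => a (eqv l).1) (fun g hg => by
        have h5 := hag ⟨g, hg⟩
        rw [det_split st hst _ (fun i hi => by
          have h6 := ha i
          rw [hi] at h6
          have h7 : a i = 0 := by omega
          rw [h7, zpow_zero])] at h5
        rw [← h5, ← eqv.prod_comp]
        refine Finset.prod_congr rfl fun l _ => ?_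
        set i := (eqv l).1 with hi
        have h8 := du_det (hW i) (hW (st i)) (hD' i) (B i) (hB0 i) (hB i) (hm g hg i).2
          (hWΔ i g hg) (hWΔ (st i) g hg)
        have h9 : χ g ^ finrank K (W i) ≠ 0 := pow_ne_zero _ (χne g)
        change (LinearMap.det ((R g).restrict (hWΔ i g hg)) ^ 2 / χ g ^ finrank K (W i)) ^ a i =
          LinearMap.det ((R g).restrict (hWΔ i g hg)) ^ a i *
            LinearMap.det ((R g).restrict (hWΔ (st i) g hg)) ^ a (st i)
        rw [← h8] at h9 ⊢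
        have h10 := left_ne_zero_of_mul h9
        have h11 := right_ne_zero_of_mul h9
        rw [ha, zpow_neg, ← div_eq_mul_inv, ← div_zpow]
        congr 1
        field_simp)
    have h2 : ∀ i, i < st i → a i = 0 := by
      intro i hi
      have h3 := congrFun h1 (eqv.symm ⟨i, hi⟩)
      rw [Equiv.apply_symm_apply] at h3
      exact h3
    funext i
    rcases lt_trichotomy i (st i) with h3 | h3 | h3
    · exact h2 i h3
    · have h4 := ha i
      rw [← h3] at h4
      change a i = 0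
      omega
    · have h4 := ha i
      rw [h2 (st i) (by rw [hst]; exact h3)] at h4
      change a i = 0
      omega
  refine ⟨Δ, hΔ, hWΔ, fun m φ hφ => ?_⟩
  exact main_pi (pf W st B) (pf_alt W st B hst hBalt) (pf_nondeg W st B hst hBl hBr) hsim st hst
    hor htw (fun i _ => hirr i) hnil hdet (hasProj_pi hirr) φ hφ

include hnd hωR hR1 hR2 hH hD hss in
/-- The theorem over an algebraically closed field. -/
theorem main_X3 [IsAlgClosed K] {m : ℕ} (φ : MultilinearMap K (fun _ : Fin m × Fin 2 => X) K) (hφ : IsTate R χ m φ) :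
    φ ∈ Submodule.span K (PT R χ m) := by
  obtain ⟨s, W, hW, hWW, hall⟩ := exists_reps hss
  obtain ⟨st, hst, hDu, hDu'⟩ := exists_st hss ω hnd hωR W hW hWW hall
  obtain ⟨Δ, hΔ, hWΔ, hE⟩ := main_E3 ω hnd hωR hR1 hss hR2 hH hD W hW hWW st hst hDu hDu'
  exact tate_of_reps hss W hW hall Δ hΔ hWΔ m (hE m) φ hφ

end

end Pool.Agent.W528.Odd
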