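import Mathlib

/-!
# Lie algebras with a square-zero element of rank prime to the dimension: statements

Plan of the proof of the odd rank theorem.  All the propositions are independent of each other.
-/

namespace Pool.Agent.W528.Odd

open Module

section defs

variable {K : Type} [Field K] {V : Type} [AddCommGroup V] [Module K V] {G : Type} [Group G]

/-- All subgroups of finite index act irreducibly. -/
def SIrr (r : Representation K G V) : Prop :=
  ∀ Δ : Subgroup G, Δ.FiniteIndex → ∀ W : Submodule K V, (∀ g ∈ Δ, ∀ u ∈ W, r g u ∈ W) →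
    W = ⊥ ∨ W = ⊤

/-- A Lie algebra of operators of trace zero, stable under a group that contains `1 + n` for all
square-zero elements `n` of the Lie algebra. -/
structure Setup (r : Representation K G V) (𝔥 : Submodule K (Module.End K V)) : Prop where
  irr : SIrr r
  br : ∀ X ∈ 𝔥, ∀ Y ∈ 𝔥, X * Y - Y * X ∈ 𝔥
  conj : ∀ g, ∀ X ∈ 𝔥, r g * X * r g⁻¹ ∈ 𝔥
  unip : ∀ n ∈ 𝔥, n * n = 0 → ∃ g, r g = 1 + n
  tr : ∀ X ∈ 𝔥, LinearMap.trace K V X = 0

/-- The span of the square-zero elements of `𝔥`. -/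
def sq (𝔥 : Submodule K (Module.End K V)) : Submodule K (Module.End K V) :=
  Submodule.span K {n | n ∈ 𝔥 ∧ n * n = 0}

/-- No proper subspace is stable under all conjugates of `N`. -/
def ConjIrr (r : Representation K G V) (N : Module.End K V) : Prop :=
  ∀ W : Submodule K V, (∀ g, ∀ u ∈ W, (r g * N * r g⁻¹) u ∈ W) → W = ⊥ ∨ W = ⊤

/-- Only zero in `sq 𝔥` is orthogonal to all conjugates of `e` for the trace form. -/
def NoOrthOf (r : Representation K G V) (𝔥 : Submodule K (Module.End K V))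
    (e : Module.End K V) : Prop :=
  ∀ y ∈ sq 𝔥, (∀ g, LinearMap.trace K V (y * (r g * e * r g⁻¹)) = 0) → y = 0

end defs

/-- COMM.  If the rank of `N` is prime to the dimension, the conjugates of `N` act irreducibly. -/
def Comm : Prop :=
  ∀ (K : Type) [Field K] [IsAlgClosed K] [CharZero K] (V : Type) [AddCommGroup V] [Module K V]
    [FiniteDimensional K V] (G : Type) [Group G] (r : Representation K G V), SIrr r →
    ∀ N : Module.End K V, Nat.Coprime (finrank K (LinearMap.range N)) (finrank K V) →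
    ConjIrr r N

/-- CART.  A stable Lie algebra of operators of trace zero on which the trace form vanishes is
zero. -/
def Cart : Prop :=
  ∀ (K : Type) [Field K] [IsAlgClosed K] [CharZero K] (V : Type) [AddCommGroup V] [Module K V]
    [FiniteDimensional K V] (G : Type) [Group G] (r : Representation K G V), SIrr r →
    ∀ 𝔞 : Submodule K (Module.End K V), (∀ x ∈ 𝔞, ∀ y ∈ 𝔞, x * y - y * x ∈ 𝔞) →
    (∀ g, ∀ x ∈ 𝔞, r g * x * r g⁻¹ ∈ 𝔞) → (∀ x ∈ 𝔞, LinearMap.trace K V x = 0) →
    (∀ x ∈ 𝔞, ∀ y ∈ 𝔞, LinearMap.trace K V (x * y) = 0) → 𝔞 = ⊥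

/-- NO.  No nonzero element of `sq 𝔥` is orthogonal to all conjugates of a nonzero square-zero
element `e`.  The first hypothesis after `Setup` is the conclusion of CART. -/
def NoOrth : Prop :=
  ∀ (K : Type) [Field K] [IsAlgClosed K] [CharZero K] (V : Type) [AddCommGroup V] [Module K V]
    [FiniteDimensional K V] (G : Type) [Group G] (r : Representation K G V)
    (𝔥 : Submodule K (Module.End K V)), Setup r 𝔥 →
    (∀ 𝔞 ≤ 𝔥, (∀ x ∈ 𝔞, ∀ y ∈ 𝔞, x * y - y * x ∈ 𝔞) → (∀ g, ∀ x ∈ 𝔞, r g * x * r g⁻¹ ∈ 𝔞) →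
      (∀ x ∈ 𝔞, ∀ y ∈ 𝔞, LinearMap.trace K V (x * y) = 0) → 𝔞 = ⊥) →
    ∀ N ∈ 𝔥, N * N = 0 → ConjIrr r N →
    ∀ e ∈ 𝔥, e * e = 0 → e ≠ 0 → NoOrthOf r 𝔥 e

/-- DIV.  The rank of an extremal element divides the ranks of all square-zero elements. -/
def Div : Prop :=
  ∀ (K : Type) [Field K] [IsAlgClosed K] [CharZero K] (V : Type) [AddCommGroup V] [Module K V]
    [FiniteDimensional K V] (G : Type) [Group G] (r : Representation K G V)
    (𝔥 : Submodule K (Module.End K V)), Setup r 𝔥 →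
    ∀ e ∈ 𝔥, e * e = 0 → (∀ x ∈ 𝔥, ∃ c : K, e * x * e = c • e) → NoOrthOf r 𝔥 e →
    ∀ n ∈ 𝔥, n * n = 0 → finrank K (LinearMap.range e) ∣ finrank K (LinearMap.range n)

/-- HALF.  The rank of a half-component of a symplectic operator. -/
def Half : Prop :=
  ∀ (K : Type) [Field K] (V : Type) [AddCommGroup V] [Module K V] [FiniteDimensional K V]
    (ω : V →ₗ[K] V →ₗ[K] K), (∀ v, ω v v = 0) → (∀ u, (∀ v, ω u v = 0) → u = 0) →
    ∀ e f x P P' : Module.End K V,
    (∀ a b, ω (e a) b + ω a (e b) = 0) → (∀ a b, ω (f a) b + ω a (f b) = 0) →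
    (∀ a b, ω (x a) b + ω a (x b) = 0) →
    P * P = P → P' * P' = P' → P * P' = 0 → P' * P = 0 →
    P * e = e → e * P' = e → f * P = f → P' * f = f → e * f * e = e → f * e * f = f →
    P * x * P' = 0 → x * P = 0 → P' * x = 0 →
    (e * f * x + x * f * e) * f * (e * f * x + x * f * e) = 0 →
    ∃ k, finrank K (LinearMap.range (e * f * x + x * f * e)) = 2 * k ∧
      2 * k ≤ finrank K (LinearMap.range e)

end Pool.Agent.W528.Odd
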