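import Mathlib
import Pool.Agent.H86.CMLib.W528.Odd.Stms

/-!
# Elements of minimal rank and the grading
-/

set_option linter.unusedSectionVars false

namespace Pool.Agent.W528.Odd

open Module

noncomputable section

variable {K : Type} [Field K] [CharZero K] {V : Type} [AddCommGroup V] [Module K V]
  [FiniteDimensional K V]

/-- The rank. -/
def rk (a : Module.End K V) : ℕ := finrank K (LinearMap.range a)

theorem rk_eq_zero {a : Module.End K V} : rk a = 0 ↔ a = 0 := by
  rw [rk, Submodule.finrank_eq_zero, LinearMap.range_eq_bot]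

theorem rk_pos {a : Module.End K V} (h : a ≠ 0) : 0 < rk a :=
  Nat.pos_of_ne_zero fun h0 => h (rk_eq_zero.1 h0)

theorem rk_mul_left (a b : Module.End K V) : rk (a * b) ≤ rk a := by
  refine Submodule.finrank_mono ?_
  rintro _ ⟨v, rfl⟩
  exact ⟨b v, rfl⟩

theorem rk_mul_right (a b : Module.End K V) : rk (a * b) ≤ rk b := by
  have h : LinearMap.range (a * b) = (LinearMap.range b).map a := by
    rw [← LinearMap.range_comp]
    rfl
  rw [rk, h]
  exact Submodule.finrank_map_le a _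

/-- An element of minimal rank. -/
theorem exists_min_rk (S : Submodule K (Module.End K V)) (hS : ∃ a ∈ S, a ≠ 0) :
    ∃ e ∈ S, e ≠ 0 ∧ ∀ a ∈ S, a ≠ 0 → rk e ≤ rk a := by
  classical
  obtain ⟨a, ha, ha0⟩ := hS
  have hex : ∃ n, ∃ a ∈ S, a ≠ 0 ∧ rk a = n := ⟨_, a, ha, ha0, rfl⟩
  obtain ⟨e, he, he0, hen⟩ := Nat.find_spec hex
  refine ⟨e, he, he0, fun b hb hb0 => ?_⟩
  rw [hen]
  exact Nat.find_min' hex ⟨b, hb, hb0, rfl⟩

theorem extremal [IsAlgClosed K] (S : Submodule K (Module.End K V)) {e : Module.End K V}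
    (he : e ∈ S) (he0 : e ≠ 0) (hmin : ∀ a ∈ S, a ≠ 0 → rk e ≤ rk a) (x : Module.End K V)
    (hx : e * x * e ∈ S) : ∃ c : K, e * x * e = c • e := by
  have hmap : ∀ w ∈ LinearMap.range e, (e * x) w ∈ LinearMap.range e := fun w _ => ⟨x w, rfl⟩
  have hnt : Nontrivial (LinearMap.range e) := by
    rw [Submodule.nontrivial_iff_ne_bot, ne_eq, LinearMap.range_eq_bot]
    exact he0
  obtain ⟨c, hc⟩ := Module.End.exists_eigenvalue ((e * x).restrict hmap)
  obtain ⟨⟨w, v, hv⟩, hw⟩ := hc.exists_hasEigenvector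
  have hw1 := hw.apply_eq_smul
  have hw2 : w ≠ 0 := fun h => hw.2 (Subtype.ext h)
  have hw3 : (e * x) w = c • w := congrArg Subtype.val hw1
  refine ⟨c, ?_⟩
  by_contra hne
  have h1 := hmin (e * x * e - c • e) (S.sub_mem hx (S.smul_mem _ he)) (sub_ne_zero.2 hne)
  have hker : LinearMap.ker e < LinearMap.ker (e * x * e - c • e) := by
    refine lt_of_le_of_ne ?_ ?_
    · intro u hu
      rw [LinearMap.mem_ker] at hu ⊢
      rw [LinearMap.sub_apply, LinearMap.smul_apply, Module.End.mul_apply, hu, map_zero, smul_zero,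
        sub_zero]
    · intro h
      have h2 : v ∈ LinearMap.ker (e * x * e - c • e) := by
        rw [LinearMap.mem_ker, LinearMap.sub_apply, LinearMap.smul_apply, Module.End.mul_apply, hv,
          hw3, sub_self]
      rw [← h, LinearMap.mem_ker, hv] at h2
      exact hw2 h2
  have h2 := Submodule.finrank_lt_finrank_of_lt hker
  have h3 := LinearMap.finrank_range_add_finrank_ker e
  have h4 := LinearMap.finrank_range_add_finrank_ker (e * x * e - c • e)
  unfold rk at h1
  omega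

theorem trace_sq_zero {a : Module.End K V} (h : a * a = 0) : LinearMap.trace K V a = 0 :=
  (LinearMap.isNilpotent_trace_of_isNilpotent ⟨2, by rw [pow_two, h]⟩).eq_zero

/-- The scalar `c` in `a x a = c a` is nonzero if the trace is. -/
theorem c_ne_zero {a x : Module.End K V} {c : K} (h : a * x * a = c • a)
    (ht : LinearMap.trace K V (a * x) ≠ 0) : c ≠ 0 := by
  rintro rfl
  apply ht
  apply trace_sq_zero
  rw [zero_smul] at h
  rw [← mul_assoc, h, zero_mul]

/-- The trace of an idempotent. -/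
theorem trace_idem {a : Module.End K V} (h : a * a = a) :
    LinearMap.trace K V a = (rk a : K) := by
  have h1 : LinearMap.IsProj (LinearMap.range a) a := by
    refine ⟨fun v => ⟨v, rfl⟩, ?_⟩
    rintro _ ⟨v, rfl⟩
    rw [← Module.End.mul_apply, h]
  exact h1.trace

theorem sq_mul_mem {𝔥 : Submodule K (Module.End K V)}
    (hbr : ∀ X ∈ 𝔥, ∀ Y ∈ 𝔥, X * Y - Y * X ∈ 𝔥) {n x : Module.End K V} (hn : n ∈ 𝔥)
    (hn2 : n * n = 0) (hx : x ∈ 𝔥) : n * x * n ∈ 𝔥 := by
  have h1 := hbr _ hn _ (hbr _ hn _ hx)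
  have h2 : n * (n * x - x * n) - (n * x - x * n) * n = (-2 : K) • (n * x * n) := by
    have h3 : n * (n * x - x * n) - (n * x - x * n) * n =
        (n * n) * x - n * x * n - n * x * n + x * (n * n) := by noncomm_ring
    rw [h3, hn2, zero_mul, mul_zero]
    module
  rw [h2] at h1
  exact (Submodule.smul_mem_iff _ (by norm_num : (-2 : K) ≠ 0)).1 h1

/-! ### The grading -/

section grading

variable {𝔥 : Submodule K (Module.End K V)} {X p : Module.End K V}

/-- The elements of degree one. -/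
def AA (𝔥 : Submodule K (Module.End K V)) (p : Module.End K V) : Submodule K (Module.End K V) where
  carrier := {a | a ∈ 𝔥 ∧ p * a = a ∧ a * p = 0}
  add_mem' := by
    rintro a b ⟨h1, h2, h3⟩ ⟨h4, h5, h6⟩
    exact ⟨𝔥.add_mem h1 h4, by rw [mul_add, h2, h5], by rw [add_mul, h3, h6, add_zero]⟩
  zero_mem' := ⟨𝔥.zero_mem, mul_zero _, zero_mul _⟩
  smul_mem' := by
    rintro c a ⟨h1, h2, h3⟩
    exact ⟨𝔥.smul_mem _ h1, by rw [mul_smul_comm, h2], by rw [smul_mul_assoc, h3, smul_zero]⟩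

theorem mem_AA {a : Module.End K V} : a ∈ AA 𝔥 p ↔ a ∈ 𝔥 ∧ p * a = a ∧ a * p = 0 := Iff.rfl

variable (hbr : ∀ X ∈ 𝔥, ∀ Y ∈ 𝔥, X * Y - Y * X ∈ 𝔥) (hX : X ∈ 𝔥)
  (hpX : p = X + (1 / 2 : K) • 1) (hpp : p * p = p)

include hpX in
theorem p_br (y : Module.End K V) : X * y - y * X = p * y - y * p := by
  rw [hpX, add_mul, mul_add, smul_mul_assoc, one_mul, mul_smul_comm, mul_one]
  abel

include hbr hX hpX in
theorem p_br_mem {y : Module.End K V} (hy : y ∈ 𝔥) : p * y - y * p ∈ 𝔥 := by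
  rw [← p_br hpX]
  exact hbr _ hX _ hy

include hbr hX hpX hpp in
theorem comp_up {y : Module.End K V} (hy : y ∈ 𝔥) : p * y * (1 - p) ∈ AA 𝔥 p := by
  have h1 := p_br_mem hbr hX hpX hy
  have h2 := p_br_mem hbr hX hpX h1
  have h3 : p * y * (1 - p) =
      (1 / 2 : K) • ((p * y - y * p) + (p * (p * y - y * p) - (p * y - y * p) * p)) := by
    have h4 : (p * y - y * p) + (p * (p * y - y * p) - (p * y - y * p) * p) =
        p * y - y * p + ((p * p) * y - p * y * p - p * y * p + y * (p * p)) := by noncomm_ring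
    rw [h4, hpp, mul_sub, mul_one]
    module
  refine ⟨?_, ?_, ?_⟩
  · rw [h3]
    exact 𝔥.smul_mem _ (𝔥.add_mem h1 h2)
  · rw [← mul_assoc, ← mul_assoc, hpp]
  · rw [mul_assoc, sub_mul, one_mul, hpp, sub_self, mul_zero]

include hbr hX hpX hpp in
theorem comp_down {y : Module.End K V} (hy : y ∈ 𝔥) : (1 - p) * y * p ∈ AA 𝔥 (1 - p) := by
  have h1 := p_br_mem hbr hX hpX hy
  have h2 := p_br_mem hbr hX hpX h1
  have h3 : (1 - p) * y * p =
      (1 / 2 : K) • ((p * (p * y - y * p) - (p * y - y * p) * p) - (p * y - y * p)) := by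
    have h4 : (p * (p * y - y * p) - (p * y - y * p) * p) - (p * y - y * p) =
        ((p * p) * y - p * y * p - p * y * p + y * (p * p)) - (p * y - y * p) := by noncomm_ring
    rw [h4, hpp, sub_mul, one_mul, sub_mul]
    module
  refine ⟨?_, ?_, ?_⟩
  · rw [h3]
    exact 𝔥.smul_mem _ (𝔥.sub_mem h2 h1)
  · have h5 : (1 - p) * (1 - p) = 1 - p := by
      have : (1 - p) * (1 - p) = 1 - p - p + p * p := by noncomm_ring
      rw [this, hpp]
      abel
    rw [← mul_assoc, ← mul_assoc, h5]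
  · rw [mul_assoc, mul_sub, mul_one, hpp, sub_self, mul_zero]

end grading

end

end Pool.Agent.W528.Odd
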