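import Mathlib
import Pool.Agent.H86.CMLib.W528.Odd.Peirce

/-!
# Frames of elements of minimal rank
-/

set_option linter.unusedSectionVars false

namespace Pool.Agent.W528.Odd

open Module

noncomputable section

variable {K : Type} [Field K] [CharZero K] {V : Type} [AddCommGroup V] [Module K V]
  [FiniteDimensional K V]
variable {𝔥 : Submodule K (Module.End K V)} {p : Module.End K V}

/-- A frame. -/
structure Fr (𝔥 : Submodule K (Module.End K V)) (p : Module.End K V) (s n : ℕ)
    (e f : Fin n → Module.End K V) : Prop where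
  eA : ∀ i, e i ∈ AA 𝔥 p
  fA : ∀ i, f i ∈ AA 𝔥 (1 - p)
  efe : ∀ i, e i * f i * e i = e i
  fef : ∀ i, f i * e i * f i = f i
  ef : ∀ i j, i ≠ j → e i * f j = 0
  fe : ∀ i j, i ≠ j → f i * e j = 0
  rke : ∀ i, rk (e i) = s

variable {s n : ℕ} {e f : Fin n → Module.End K V}

theorem Fr.Ef (h : Fr 𝔥 p s n e f) (i : Fin n) : (∑ j, e j) * f i = e i * f i := by
  rw [Finset.sum_mul]
  exact Finset.sum_eq_single i (fun j _ hj => h.ef j i hj) (fun hi => absurd (Finset.mem_univ _) hi)

theorem Fr.Fe (h : Fr 𝔥 p s n e f) (i : Fin n) : (∑ j, f j) * e i = f i * e i := by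
  rw [Finset.sum_mul]
  exact Finset.sum_eq_single i (fun j _ hj => h.fe j i hj) (fun hi => absurd (Finset.mem_univ _) hi)

theorem Fr.eF (h : Fr 𝔥 p s n e f) (i : Fin n) : e i * (∑ j, f j) = e i * f i := by
  rw [Finset.mul_sum]
  exact Finset.sum_eq_single i (fun j _ hj => h.ef i j (Ne.symm hj))
    (fun hi => absurd (Finset.mem_univ _) hi)

theorem Fr.fE (h : Fr 𝔥 p s n e f) (i : Fin n) : f i * (∑ j, e j) = f i * e i := by
  rw [Finset.mul_sum]
  exact Finset.sum_eq_single i (fun j _ hj => h.fe i j (Ne.symm hj))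
    (fun hi => absurd (Finset.mem_univ _) hi)

theorem Fr.EF (h : Fr 𝔥 p s n e f) : (∑ j, e j) * (∑ j, f j) = ∑ i, e i * f i := by
  rw [Finset.sum_mul]
  exact Finset.sum_congr rfl fun i _ => h.eF i

theorem Fr.FE (h : Fr 𝔥 p s n e f) : (∑ j, f j) * (∑ j, e j) = ∑ i, f i * e i := by
  rw [Finset.sum_mul]
  exact Finset.sum_congr rfl fun i _ => h.fE i

theorem Fr.Pe (h : Fr 𝔥 p s n e f) (i : Fin n) : (∑ j, e j) * (∑ j, f j) * e i = e i := by
  rw [mul_assoc, h.Fe, ← mul_assoc, h.Ef, h.efe]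

theorem Fr.Pf (h : Fr 𝔥 p s n e f) (i : Fin n) : (∑ j, f j) * (∑ j, e j) * f i = f i := by
  rw [mul_assoc, h.Ef, ← mul_assoc, h.Fe, h.fef]

theorem Fr.eP (h : Fr 𝔥 p s n e f) (i : Fin n) : e i * ((∑ j, f j) * (∑ j, e j)) = e i := by
  rw [← mul_assoc, h.eF, mul_assoc, h.fE, ← mul_assoc, h.efe]

theorem Fr.fP (h : Fr 𝔥 p s n e f) (i : Fin n) : f i * ((∑ j, e j) * (∑ j, f j)) = f i := by
  rw [← mul_assoc, h.fE, mul_assoc, h.eF, ← mul_assoc, h.fef]

theorem Fr.pr (h : Fr 𝔥 p s n e f) : Pr 𝔥 p (∑ j, e j) (∑ j, f j) where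
  eA := Submodule.sum_mem _ fun i _ => h.eA i
  fA := Submodule.sum_mem _ fun i _ => h.fA i
  efe := by
    rw [Finset.mul_sum]
    exact Finset.sum_congr rfl fun i _ => h.Pe i
  fef := by
    rw [Finset.mul_sum]
    exact Finset.sum_congr rfl fun i _ => h.Pf i

theorem rk_ef {e f : Module.End K V} (h : e * f * e = e) : rk (e * f) = rk e := by
  apply le_antisymm (rk_mul_left e f)
  calc rk e = rk (e * f * e) := by rw [h]
    _ ≤ rk (e * f) := rk_mul_left _ _

theorem Fr.trace (h : Fr 𝔥 p s n e f) :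
    LinearMap.trace K V ((∑ j, e j) * (∑ j, f j)) = (n : K) * s := by
  rw [h.EF, map_sum, Finset.sum_congr rfl (fun i _ => show LinearMap.trace K V (e i * f i) = (s : K)
    from ?_)]
  · rw [Finset.sum_const, Finset.card_univ, Fintype.card_fin, nsmul_eq_mul]
  · rw [trace_idem (by rw [← mul_assoc, h.efe]), rk_ef (h.efe i), h.rke]

theorem Fr.bound (h : Fr 𝔥 p s n e f) : n * s ≤ finrank K V := by
  have h1 := h.trace
  rw [trace_idem h.pr.idem] at h1
  have h2 : n * s = rk ((∑ j, e j) * (∑ j, f j)) := by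
    have h3 : ((n * s : ℕ) : K) = (rk ((∑ j, e j) * (∑ j, f j)) : K) := by
      rw [h1]
      push_cast
      ring
    exact_mod_cast h3
  rw [h2]
  exact Submodule.finrank_le _

/-- The empty frame. -/
theorem Fr.empty (s : ℕ) : Fr 𝔥 p s 0 (fun i => i.elim0) (fun i => i.elim0) :=
  ⟨fun i => i.elim0, fun i => i.elim0, fun i => i.elim0, fun i => i.elim0, fun i => i.elim0,
    fun i => i.elim0, fun i => i.elim0⟩

/-- Adding an element to a frame. -/
theorem Fr.cons (h : Fr 𝔥 p s n e f) {a b : Module.End K V} (ha : a ∈ AA 𝔥 p)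
    (hb : b ∈ AA 𝔥 (1 - p)) (haba : a * b * a = a) (hbab : b * a * b = b)
    (h1 : (∑ j, e j) * (∑ j, f j) * a = 0) (h2 : a * ((∑ j, f j) * (∑ j, e j)) = 0)
    (h3 : (∑ j, f j) * (∑ j, e j) * b = 0) (h4 : b * ((∑ j, e j) * (∑ j, f j)) = 0)
    (hr : rk a = s) :
    Fr 𝔥 p s (n + 1) (Fin.cons a e) (Fin.cons b f) := by
  have haf : ∀ i, a * f i = 0 := fun i => by
    rw [← h.Pf i, ← mul_assoc, h2, zero_mul]
  have hea : ∀ i, e i * b = 0 := fun i => by
    rw [← h.eP i, mul_assoc, h3, mul_zero]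
  have hbe : ∀ i, b * e i = 0 := fun i => by
    rw [← h.Pe i, ← mul_assoc, h4, zero_mul]
  have hfa : ∀ i, f i * a = 0 := fun i => by
    rw [← h.fP i, mul_assoc, h1, mul_zero]
  refine ⟨?_, ?_, ?_, ?_, ?_, ?_, ?_⟩
  · intro i
    refine Fin.cases ?_ (fun i => ?_) i
    · exact ha
    · exact h.eA i
  · intro i
    refine Fin.cases ?_ (fun i => ?_) i
    · exact hb
    · exact h.fA i
  · intro i
    refine Fin.cases ?_ (fun i => ?_) i
    · exact haba
    · exact h.efe i
  · intro i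
    refine Fin.cases ?_ (fun i => ?_) i
    · exact hbab
    · exact h.fef i
  · intro i j
    refine Fin.cases ?_ (fun i => ?_) i
    · refine Fin.cases ?_ (fun j => ?_) j
      · intro h0
        exact absurd rfl h0
      · intro _
        exact haf j
    · refine Fin.cases ?_ (fun j => ?_) j
      · intro _
        exact hea i
      · intro hij
        exact h.ef i j (fun h0 => hij (by rw [h0]))
  · intro i j
    refine Fin.cases ?_ (fun i => ?_) i
    · refine Fin.cases ?_ (fun j => ?_) j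
      · intro h0
        exact absurd rfl h0
      · intro _
        exact hbe j
    · refine Fin.cases ?_ (fun j => ?_) j
      · intro _
        exact hfa i
      · intro hij
        exact h.fe i j (fun h0 => hij (by rw [h0]))
  · intro i
    refine Fin.cases ?_ (fun i => ?_) i
    · exact hr
    · exact h.rke i

/-- A maximal frame. -/
theorem exists_max (hs : 0 < s) :
    ∃ (n : ℕ) (e f : Fin n → Module.End K V), Fr 𝔥 p s n e f ∧
      ∀ e' f' : Fin (n + 1) → Module.End K V, ¬ Fr 𝔥 p s (n + 1) e' f' := by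
  by_contra hcon
  push Not at hcon
  have h : ∀ n : ℕ, ∃ e f : Fin n → Module.End K V, Fr 𝔥 p s n e f := by
    intro n
    induction n with
    | zero => exact ⟨_, _, Fr.empty s⟩
    | succ n ih =>
      obtain ⟨e, f, hef⟩ := ih
      exact hcon n e f hef
  obtain ⟨e, f, hef⟩ := h (finrank K V + 1)
  have h1 := hef.bound
  have h2 : finrank K V + 1 ≤ (finrank K V + 1) * s := Nat.le_mul_of_pos_right _ hs
  omega

end

end Pool.Agent.W528.Odd
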