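import Mathlib
import Pool.Agent.H86.CMLib.W528.Odd.Frame2

/-!
# The elements of minimal rank divide the dimension
-/

set_option linter.unusedSectionVars false

namespace Pool.Agent.W528.Odd

open Module

noncomputable section

variable {K : Type} [Field K] [CharZero K] {V : Type} [AddCommGroup V] [Module K V]
  [FiniteDimensional K V] {G : Type} [Group G] {r : Representation K G V}
variable {𝔥 : Submodule K (Module.End K V)} {X p : Module.End K V}

theorem single_pr {s n : ℕ} {e f : Fin n → Module.End K V} (h : Fr 𝔥 p s n e f) (i : Fin n) :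
    Pr 𝔥 p (e i) (f i) := ⟨h.eA i, h.fA i, h.efe i, h.fef i⟩

/-- The half components vanish. -/
theorem half_zero (hHalf : Half) (ω : V →ₗ[K] V →ₗ[K] K) (halt : ∀ v, ω v v = 0)
    (hnd : ∀ u, (∀ v, ω u v = 0) → u = 0)
    (hbr : ∀ X ∈ 𝔥, ∀ Y ∈ 𝔥, X * Y - Y * X ∈ 𝔥)
    (hsp : ∀ y ∈ 𝔥, ∀ a b, ω (y a) b + ω a (y b) = 0) {n : ℕ} {e : Module.End K V}
    {ee ff : Fin n → Module.End K V} (he : MinE 𝔥 p e) (hodd : Odd (rk e))
    (hF : Fr 𝔥 p (rk e) n ee ff)
    (h0 : A0 𝔥 p ((∑ j, ee j) * (∑ j, ff j)) ((∑ j, ff j) * (∑ j, ee j)) = ⊥)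
    {x : Module.End K V} (hx : x ∈ AA 𝔥 p)
    (hx2 : (∑ j, ee j) * (∑ j, ff j) * x * ((∑ j, ff j) * (∑ j, ee j)) = 0)
    (hx1 : (∑ j, ee j) * (∑ j, ff j) * x + x * ((∑ j, ff j) * (∑ j, ee j)) = x) : x = 0 := by
  have hPr := hF.pr
  have hxe : ∀ i, x * ee i = 0 := fun i => AA_mul hx (hF.eA i)
  have hex : ∀ i, ee i * x = 0 := fun i => AA_mul (hF.eA i) hx
  have hz : ∀ i, ee i * ff i * x + x * (ff i * ee i) = 0 := by
    intro i
    have hzA := (single_pr hF i).L_mem hbr hx
    have hfx : ff i * x * ff i = 0 := by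
      have h1 : ff i * ((∑ j, ee j) * (∑ j, ff j) * x * ((∑ j, ff j) * (∑ j, ee j))) * ff i =
          (ff i * ((∑ j, ee j) * (∑ j, ff j))) * x *
            ((∑ j, ff j) * (∑ j, ee j) * ff i) := by
        simp only [mul_assoc]
      rw [hx2, mul_zero, zero_mul, hF.fP, hF.Pf] at h1
      exact h1.symm
    have hzf : (ee i * ff i * x + x * (ff i * ee i)) * ff i = x * ff i := by
      have h1 : (ee i * ff i * x + x * (ff i * ee i)) * ff i =
          ee i * (ff i * x * ff i) + x * (ff i * ee i * ff i) := by noncomm_ring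
      rw [h1, hfx, mul_zero, zero_add, hF.fef]
    have hfz : ff i * (ee i * ff i * x + x * (ff i * ee i)) = ff i * x := by
      have h1 : ff i * (ee i * ff i * x + x * (ff i * ee i)) =
          (ff i * ee i * ff i) * x + (ff i * x * ff i) * ee i := by noncomm_ring
      rw [h1, hfx, zero_mul, add_zero, hF.fef]
    have hzfz : (ee i * ff i * x + x * (ff i * ee i)) * ff i *
        (ee i * ff i * x + x * (ff i * ee i)) = x * ff i * x := by
      rw [hzf, mul_assoc, hfz, mul_assoc]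
    have hA0 : x * ff i * x ∈ A0 𝔥 p ((∑ j, ee j) * (∑ j, ff j))
        ((∑ j, ff j) * (∑ j, ee j)) := by
      refine ⟨AA_sandwich hbr hx (hF.fA i).1, ?_, ?_⟩
      · have h1 : (∑ j, ee j) * (∑ j, ff j) * (x * ff i * x) =
            ((∑ j, ee j) * (∑ j, ff j) * x * ((∑ j, ff j) * (∑ j, ee j))) * ff i * x := by
          rw [mul_assoc (_ * x) _ (ff i), hF.Pf i]
          simp only [mul_assoc]
        rw [h1, hx2, zero_mul, zero_mul]
      · have h1 : x * ff i * x * ((∑ j, ff j) * (∑ j, ee j)) =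
            x * (ff i * ((∑ j, ee j) * (∑ j, ff j) * x * ((∑ j, ff j) * (∑ j, ee j)))) := by
          conv_lhs => rw [← hF.fP i]
          simp only [mul_assoc]
        rw [h1, hx2, mul_zero, mul_zero]
    rw [h0, Submodule.mem_bot] at hA0
    obtain ⟨k, hk1, hk2⟩ := hHalf K V ω halt hnd (ee i) (ff i) x
      ((∑ j, ee j) * (∑ j, ff j)) ((∑ j, ff j) * (∑ j, ee j))
      (hsp _ (hF.eA i).1) (hsp _ (hF.fA i).1) (hsp _ hx.1)
      hPr.idem hPr.idem' hPr.orth hPr.orth' (hF.Pe i) (hF.eP i) (hF.fP i) (hF.Pf i) (hF.efe i)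
      (hF.fef i) hx2 (by rw [← mul_assoc, AA_mul hx hPr.eA, zero_mul])
      (by rw [mul_assoc, AA_mul hPr.eA hx, mul_zero]) (by
        rw [mul_assoc x (ff i) (ee i), hzfz, hA0])
    by_contra hne
    have h1 := he.min _ hzA hne
    rw [mul_assoc x (ff i) (ee i)] at hk1
    have h2 : rk (ee i * ff i * x + x * (ff i * ee i)) = 2 * k := hk1
    have h3 : 2 * k ≤ rk (ee i) := hk2
    rw [hF.rke] at h3
    obtain ⟨l, hl⟩ := hodd
    omega
  rw [← hx1, hF.EF, hF.FE, Finset.sum_mul, Finset.mul_sum, ← Finset.sum_add_distrib]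
  exact Finset.sum_eq_zero fun i _ => hz i

variable (hS : Setup r 𝔥) (hX : X ∈ 𝔥) (hpX : p = X + (1 / 2 : K) • 1) (hpp : p * p = p)
  {N : Module.End K V} (hN : N ∈ 𝔥) (hN2 : N * N = 0) (hN0 : N ≠ 0) (hCN : ConjIrr r N)
  (hNO : ∀ e ∈ 𝔥, e * e = 0 → e ≠ 0 → NoOrthOf r 𝔥 e)

include hS hX hpX hpp hN hN0 hCN hNO in
/-- The rank of an element of minimal rank divides the dimension. -/
theorem rk_dvd_dim [IsAlgClosed K] (hHalf : Half) (ω : V →ₗ[K] V →ₗ[K] K)
    (halt : ∀ v, ω v v = 0) (hnd : ∀ u, (∀ v, ω u v = 0) → u = 0)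
    (hsp : ∀ y ∈ 𝔥, ∀ a b, ω (y a) b + ω a (y b) = 0) {e : Module.End K V}
    (he : MinE 𝔥 p e) (hodd : Odd (rk e)) : rk e ∣ finrank K V := by
  obtain ⟨n, ee, ff, hF, hmax⟩ := exists_max (𝔥 := 𝔥) (p := p) (rk_pos he.ne)
  have h0 := A0_eq_bot hS hX hpX hpp hNO he hF hmax
  have hPr := hF.pr
  have hall : ∀ a ∈ AA 𝔥 p, (∑ j, ee j) * (∑ j, ff j) * a * ((∑ j, ff j) * (∑ j, ee j)) = a :=
    fun a ha => hPr.two_of hS.br h0 (fun x hx hx2 hx1 =>
      half_zero hHalf ω halt hnd hS.br hsp he hodd hF h0 hx hx2 hx1) ha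
  set E := ∑ j, ee j with hE
  set F := ∑ j, ff j with hFF
  have hPP := hPr.idem
  have hPP' := hPr.idem'
  have hor := hPr.orth
  have hor' := hPr.orth'
  have hallB : ∀ b ∈ AA 𝔥 (1 - p), F * E * b * (E * F) = b := by
    intro b hb
    have h1 : b - F * E * b * (E * F) ∈ AA 𝔥 (1 - p) :=
      Submodule.sub_mem _ hb (hPr.swap.two_mem hS.br hb)
    have h2 : b - F * E * b * (E * F) = 0 := by
      refine hNO e he.mem.1 (AA_mul he.mem he.mem) he.ne _ (AA_sq h1) fun g => ?_
      rw [trace_down h1]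
      have ha := hall _ (comp_up hS.br hX hpX hpp (hS.conj g e he.mem.1))
      set a := p * (r g * e * r g⁻¹) * (1 - p)
      rw [← ha]
      have h3 : (b - F * E * b * (E * F)) * (E * F * a * (F * E)) =
          ((b - F * E * b * (E * F)) * (E * F * a)) * (F * E) := by noncomm_ring
      rw [h3, LinearMap.trace_mul_comm]
      have h4 : F * E * ((b - F * E * b * (E * F)) * (E * F * a)) =
          (F * E * b * (E * F)) * a -
            ((F * E) * (F * E)) * b * ((E * F) * (E * F)) * a := by noncomm_ring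
      rw [h4, hPP, hPP', sub_self, map_zero]
    exact (sub_eq_zero.1 h2).symm
  have hAl : ∀ a ∈ AA 𝔥 p, (E * F) * a = a ∧ a * (F * E) = a ∧ (F * E) * a = 0 ∧
      a * (E * F) = 0 := by
    intro a ha
    have h1 := hall a ha
    refine ⟨?_, ?_, ?_, ?_⟩
    · calc E * F * a = E * F * (E * F * a * (F * E)) := by rw [h1]
        _ = ((E * F) * (E * F)) * a * (F * E) := by noncomm_ring
        _ = a := by rw [hPP, h1]
    · calc a * (F * E) = (E * F * a * (F * E)) * (F * E) := by rw [h1]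
        _ = E * F * a * ((F * E) * (F * E)) := by noncomm_ring
        _ = a := by rw [hPP', h1]
    · rw [mul_assoc, AA_mul hPr.eA ha, mul_zero]
    · rw [← mul_assoc, AA_mul ha hPr.eA, zero_mul]
  have hBl : ∀ b ∈ AA 𝔥 (1 - p), (F * E) * b = b ∧ b * (E * F) = b ∧ (E * F) * b = 0 ∧
      b * (F * E) = 0 := by
    intro b hb
    have h1 := hallB b hb
    refine ⟨?_, ?_, ?_, ?_⟩
    · calc F * E * b = F * E * (F * E * b * (E * F)) := by rw [h1]
        _ = ((F * E) * (F * E)) * b * (E * F) := by noncomm_ring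
        _ = b := by rw [hPP', h1]
    · calc b * (E * F) = (F * E * b * (E * F)) * (E * F) := by rw [h1]
        _ = F * E * b * ((E * F) * (E * F)) := by noncomm_ring
        _ = b := by rw [hPP, h1]
    · rw [mul_assoc, AA_mul hPr.fA hb, mul_zero]
    · rw [← mul_assoc, AA_mul hb hPr.fA, zero_mul]
  set Q := E * F + F * E with hQ
  have hQQ : Q * Q = Q := by
    have h1 : Q * Q = (E * F) * (E * F) + (E * F) * (F * E) + (F * E) * (E * F) +
        (F * E) * (F * E) := by rw [hQ]; noncomm_ring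
    rw [h1, hPP, hPP', hor, hor', add_zero, add_zero]
  have hpE : p * E = E := hPr.eA.2.1
  have hEp : E * p = 0 := hPr.eA.2.2
  have hpF : p * F = 0 := BB_left hPr.fA
  have hFp : F * p = F := BB_right hPr.fA
  have hst : ∀ y ∈ 𝔥, Q * y * Q = y * Q := by
    intro y hy
    have ha := comp_up hS.br hX hpX hpp hy
    have hb := comp_down hS.br hX hpX hpp hy
    obtain ⟨ha1, ha2, ha3, ha4⟩ := hAl _ ha
    obtain ⟨hb1, hb2, hb3, hb4⟩ := hBl _ hb
    set a := p * y * (1 - p) with hadef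
    set b := (1 - p) * y * p with hbdef
    obtain ⟨y₀, hy₀⟩ : ∃ y₀, y₀ = y - a - b := ⟨_, rfl⟩
    have hy₀m : y₀ ∈ 𝔥 := by
      rw [hy₀]
      exact 𝔥.sub_mem (𝔥.sub_mem hy ha.1) hb.1
    have hcomm : p * y₀ = y₀ * p := by
      have h1 : p * y₀ = p * y * p := by
        have h2 : p * (y - a - b) = p * y - (p * p) * y * (1 - p) - (p - p * p) * y * p := by
          rw [hadef, hbdef]
          noncomm_ring
        rw [hy₀, h2, hpp, sub_self, zero_mul, zero_mul, sub_zero]
        noncomm_ring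
      have h3 : y₀ * p = p * y * p := by
        have h2 : (y - a - b) * p = y * p - p * y * (p - p * p) - (1 - p) * y * (p * p) := by
          rw [hadef, hbdef]
          noncomm_ring
        rw [hy₀, h2, hpp, sub_self, mul_zero, sub_zero]
        noncomm_ring
      rw [h1, h3]
    -- brackets with `E` and `F`
    have hc1 : y₀ * E - E * y₀ ∈ AA 𝔥 p := by
      refine ⟨hS.br _ hy₀m _ hPr.eA.1, ?_, ?_⟩
      · have h1 : p * (y₀ * E - E * y₀) = (p * y₀) * E - (p * E) * y₀ := by noncomm_ring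
        rw [h1, hcomm, mul_assoc, hpE]
      · have h1 : (y₀ * E - E * y₀) * p = y₀ * (E * p) - E * (y₀ * p) := by noncomm_ring
        rw [h1, ← hcomm, hEp, ← mul_assoc E, hEp, mul_zero, zero_mul, sub_zero]
    have hc2 : y₀ * F - F * y₀ ∈ AA 𝔥 (1 - p) := by
      refine ⟨hS.br _ hy₀m _ hPr.fA.1, ?_, ?_⟩
      · have h1 : (1 - p) * (y₀ * F - F * y₀) = y₀ * F - F * y₀ - ((p * y₀) * F - (p * F) * y₀) := by
          noncomm_ring
        rw [h1, hcomm, mul_assoc, hpF, mul_zero, zero_mul, sub_zero, sub_zero]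
      · have h1 : (y₀ * F - F * y₀) * (1 - p) = y₀ * F - F * y₀ - (y₀ * (F * p) - F * (y₀ * p)) := by
          noncomm_ring
        rw [h1, hFp, ← hcomm, ← mul_assoc F, hFp, sub_self]
    obtain ⟨hc1, -, -, -⟩ := hAl _ hc1
    obtain ⟨hc2, -, -, -⟩ := hBl _ hc2
    have hyE : (E * F) * y₀ * E = y₀ * E := by
      have h1 : E * F * (y₀ * E - E * y₀) = (E * F) * y₀ * E - (E * F * E) * y₀ := by noncomm_ring
      rw [h1, hPr.efe] at hc1
      exact sub_left_injective hc1
    have hyF : (F * E) * y₀ * F = y₀ * F := by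
      have h1 : F * E * (y₀ * F - F * y₀) = (F * E) * y₀ * F - (F * E * F) * y₀ := by noncomm_ring
      rw [h1, hPr.fef] at hc2
      exact sub_left_injective hc2
    have hy : y = y₀ + a + b := by rw [hy₀]; abel
    have h1 : Q * y₀ * Q = y₀ * Q := by
      have h2 : y₀ * Q = (y₀ * E) * F + (y₀ * F) * E := by rw [hQ]; noncomm_ring
      have h3 : Q * y₀ * Q = Q * (y₀ * E) * F + Q * (y₀ * F) * E := by
        rw [hQ]; noncomm_ring
      have h4 : Q * (y₀ * E) = y₀ * E := by
        rw [← hyE]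
        have h5 : Q * ((E * F) * y₀ * E) = ((E * F) * (E * F) + (F * E) * (E * F)) * y₀ * E := by
          rw [hQ]; noncomm_ring
        rw [h5, hPP, hor', add_zero]
      have h5 : Q * (y₀ * F) = y₀ * F := by
        rw [← hyF]
        have h6 : Q * ((F * E) * y₀ * F) = ((E * F) * (F * E) + (F * E) * (F * E)) * y₀ * F := by
          rw [hQ]; noncomm_ring
        rw [h6, hPP', hor, zero_add]
      rw [h3, h4, h5, h2]
    have h2 : Q * a = a := by rw [hQ, add_mul, ha1, ha3, add_zero]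
    have h3 : Q * b = b := by rw [hQ, add_mul, hb1, hb3, zero_add]
    calc Q * y * Q = Q * y₀ * Q + (Q * a) * Q + (Q * b) * Q := by rw [hy]; noncomm_ring
      _ = y * Q := by rw [h1, h2, h3, hy]; noncomm_ring
  have hcases := idem_cases hQQ rfl (hCN (LinearMap.range Q) (by
    rintro g _ ⟨v, rfl⟩
    refine ⟨(r g * N * r g⁻¹ * Q) v, ?_⟩
    rw [← Module.End.mul_apply, ← Module.End.mul_apply, ← mul_assoc,
      hst _ (hS.conj g N hN)]))
  have hE0 : E * F ≠ 0 := by
    intro h1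
    have h2 : E = 0 := by rw [← hPr.efe, h1, zero_mul]
    have h3 : e ∈ A0 𝔥 p (E * F) (F * E) := by
      refine ⟨he.mem, ?_, ?_⟩
      · rw [h1, zero_mul]
      · rw [h2, mul_zero, mul_zero]
    rw [h0, Submodule.mem_bot] at h3
    exact he.ne h3
  have hQ1 : Q = 1 := by
    rcases hcases with h1 | h1
    · exfalso
      apply hE0
      have h2 : (E * F) * Q = E * F := by rw [hQ, mul_add, hPP, hor, add_zero]
      rw [← h2, h1, mul_zero]
    · exact h1
  have hpP : p = E * F := by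
    have h1 : p * Q = E * F := by
      rw [hQ, mul_add, ← mul_assoc, ← mul_assoc, hpE, hpF, zero_mul, add_zero]
    rw [hQ1, mul_one] at h1
    exact h1
  have htr1 : LinearMap.trace K V p = (1 / 2 : K) * (finrank K V : K) := by
    rw [hpX, map_add, hS.tr X hX, map_smul, LinearMap.trace_one, zero_add, smul_eq_mul]
  have htr2 := hF.trace
  rw [← hE, ← hFF, ← hpP, htr1] at htr2
  have h1 : (finrank K V : K) = ((2 * n * rk e : ℕ) : K) := by
    push_cast
    linear_combination 2 * htr2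
  have h2 : finrank K V = 2 * n * rk e := by exact_mod_cast h1
  rw [h2]
  exact dvd_mul_left _ _

end

end Pool.Agent.W528.Odd
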