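import Mathlib
import Pool.Agent.H86.CMLib.W528.Odd.Frame3

/-!
# The odd rank theorem without the condition on the dimension: statements
-/

namespace Pool.Agent.W528.Odd

open Module

/-- EVEN.  A symplectic operator that commutes with an invertible symplectic operator has even
rank. -/
def EvenRk : Prop :=
  ∀ (K : Type) [Field K] [CharZero K] (V : Type) [AddCommGroup V] [Module K V]
    [FiniteDimensional K V] (ω : V →ₗ[K] V →ₗ[K] K), (∀ v, ω v v = 0) →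
    (∀ u, (∀ v, ω u v = 0) → u = 0) → ∀ N X : Module.End K V,
    (∀ a b, ω (N a) b + ω a (N b) = 0) → (∀ a b, ω (X a) b + ω a (X b) = 0) →
    X * X = (1 / 4 : K) • 1 → X * N = N * X → Even (finrank K (LinearMap.range N))

/-- SPLIT.  Two commuting spaces of operators of trace zero that together act irreducibly. -/
def Split : Prop :=
  ∀ (K : Type) [Field K] [IsAlgClosed K] [CharZero K] (V : Type) [AddCommGroup V] [Module K V]
    [FiniteDimensional K V] (𝔨 𝔨' : Submodule K (Module.End K V)),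
    (∀ x ∈ 𝔨, ∀ y ∈ 𝔨', x * y = y * x) → (∀ x ∈ 𝔨, LinearMap.trace K V x = 0) →
    (∀ W : Submodule K V, (∀ x ∈ 𝔨, ∀ u ∈ W, x u ∈ W) → (∀ x ∈ 𝔨', ∀ u ∈ W, x u ∈ W) →
      W = ⊥ ∨ W = ⊤) →
    (∀ x ∈ 𝔨, ∀ y ∈ 𝔨', x * y = 0 → x = 0 ∨ y = 0) ∧
    (∀ x ∈ 𝔨, ∀ y ∈ 𝔨', (x + y) * (x + y) = 0 → x = 0 ∨ y = 0)

/-- SIRR.  A group that contains the one-parameter groups of the elements `X` with `X ^ 2 = 1 / 4`
of a space of operators acts strongly irreducibly, if these `X` act irreducibly. -/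
def SIrrT : Prop :=
  ∀ (K : Type) [Field K] [CharZero K] (V : Type) [AddCommGroup V] [Module K V]
    [FiniteDimensional K V] (G : Type) [Group G] (r : Representation K G V)
    (𝔮 : Submodule K (Module.End K V)),
    (∀ X ∈ 𝔮, X * X = (1 / 4 : K) • 1 → ∃ g, r g = (3 / 2 : K) • 1 + X) →
    (∀ W : Submodule K V, (∀ X ∈ 𝔮, X * X = (1 / 4 : K) • 1 → ∀ u ∈ W, X u ∈ W) →
      W = ⊥ ∨ W = ⊤) → SIrr r

/-- XDICH.  An element `X` with `X ^ 2 = 1 / 4` of the sum of two commuting ideals commutes with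
one of them. -/
def XDich : Prop :=
  ∀ (K : Type) [Field K] [CharZero K] (V : Type) [AddCommGroup V] [Module K V]
    [FiniteDimensional K V] (𝔮 𝔨 𝔨' : Submodule K (Module.End K V)), 𝔨 ⊔ 𝔨' = 𝔮 →
    (∀ x ∈ 𝔮, ∀ y ∈ 𝔨, x * y - y * x ∈ 𝔨) → (∀ x ∈ 𝔮, ∀ y ∈ 𝔨', x * y - y * x ∈ 𝔨') →
    (∀ x ∈ 𝔨, ∀ y ∈ 𝔨', x * y = 0 → x = 0 ∨ y = 0) →
    (∀ x ∈ 𝔨, ∀ y ∈ 𝔨', LinearMap.trace K V (x * y) = 0) →
    (∀ y ∈ 𝔮, (∀ z ∈ 𝔮, LinearMap.trace K V (y * z) = 0) → y = 0) →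
    ∀ X ∈ 𝔮, X * X = (1 / 4 : K) • 1 →
    (∀ y ∈ 𝔨, X * y = y * X) ∨ (∀ y ∈ 𝔨', X * y = y * X)

/-- BOUND.  If the rank of the elements of a complete frame is odd, the dimension is at most twice
the number of the elements of the frame. -/
def Bound : Prop :=
  ∀ (K : Type) [Field K] [IsAlgClosed K] [CharZero K] (V : Type) [AddCommGroup V] [Module K V]
    [FiniteDimensional K V] (ω : V →ₗ[K] V →ₗ[K] K), (∀ v, ω v v = 0) →
    (∀ u, (∀ v, ω u v = 0) → u = 0) → Half →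
    ∀ (𝔥 : Submodule K (Module.End K V)) (p : Module.End K V) (s n : ℕ)
      (e f : Fin n → Module.End K V), p * p = p →
    (∀ X ∈ 𝔥, ∀ Y ∈ 𝔥, X * Y - Y * X ∈ 𝔥) → (∀ y ∈ 𝔥, ∀ a b, ω (y a) b + ω a (y b) = 0) →
    Fr 𝔥 p s n e f → (∑ i, e i * f i = p) → (∑ i, f i * e i = 1 - p) → Odd s →
    (∀ a ∈ AA 𝔥 p, a ≠ 0 → s ≤ rk a) → (∀ i, ∀ x ∈ 𝔥, ∃ c : K, e i * x * e i = c • e i) →
    (∀ W : Submodule K V, (∀ a ∈ AA 𝔥 p, ∀ u ∈ W, a u ∈ W) →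
      (∀ b ∈ AA 𝔥 (1 - p), ∀ u ∈ W, b u ∈ W) → W = ⊥ ∨ W = ⊤) →
    finrank K V ≤ 2 * n

end Pool.Agent.W528.Odd
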