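import Mathlib
import Pool.Agent.H86.CMLib.W528.Odd.Simple
import Pool.Agent.H86.CMLib.W528.Odd.Frame4
import Pool.Agent.H86.CMLib.W528.Odd.Stms2

/-!
# Square-zero elements of odd rank
-/

set_option linter.unusedSectionVars false
set_option linter.unusedVariables false

namespace Pool.Agent.W528.Odd

open Module Pool.Agent.H204R3.SP Pool.Agent.W529.Ta

noncomputable section

variable {K : Type} [Field K] [CharZero K] {V : Type} [AddCommGroup V] [Module K V]
  [FiniteDimensional K V] {ω : V →ₗ[K] V →ₗ[K] K} {𝔥 𝔮 : Submodule K (Module.End K V)}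

/-- The generators. -/
def gens (𝔥 : Submodule K (Module.End K V)) : Set (Module.End K V) :=
  {n | n ∈ 𝔥 ∧ n * n = 0} ∪ {X | X ∈ 𝔥 ∧ X * X = (1 / 4 : K) • 1}

theorem gens_le : Submodule.span K (gens 𝔥) ≤ 𝔥 := by
  rw [Submodule.span_le]
  rintro x (⟨h, -⟩ | ⟨h, -⟩) <;> exact h

theorem adX_mem (hbr : ∀ X ∈ 𝔥, ∀ Y ∈ 𝔥, X * Y - Y * X ∈ 𝔥) {X : Module.End K V} (hX : X ∈ 𝔥)
    (hXX : X * X = (1 / 4 : K) • 1) {y : Module.End K V} (hy : y ∈ 𝔥) :
    X * y - y * X ∈ Submodule.span K (gens 𝔥) := by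
  obtain ⟨p, hpX⟩ : ∃ p, p = X + (1 / 2 : K) • (1 : Module.End K V) := ⟨_, rfl⟩
  have hpp : p * p = p := by rw [hpX]; exact idem_of hXX
  have h1 := comp_up hbr hX hpX hpp hy
  have h2 := comp_down hbr hX hpX hpp hy
  have h3 : X * y - y * X = p * y * (1 - p) - (1 - p) * y * p := by
    rw [p_br hpX]
    noncomm_ring
  rw [h3]
  exact Submodule.sub_mem _ (Submodule.subset_span (Or.inl ⟨h1.1, AA_mul h1 h1⟩))
    (Submodule.subset_span (Or.inl ⟨h2.1, AA_mul h2 h2⟩))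

theorem adn_mem (hbr : ∀ X ∈ 𝔥, ∀ Y ∈ 𝔥, X * Y - Y * X ∈ 𝔥) {n : Module.End K V} (hn : n ∈ 𝔥)
    (hn2 : n * n = 0) {y : Module.End K V} (hy : y ∈ 𝔥) (hy2 : y * y = 0) :
    n * y - y * n ∈ Submodule.span K (gens 𝔥) := by
  have h1 : n * y * n ∈ 𝔥 := sq_mul_mem hbr hn hn2 hy
  have h2 : n * y * n * (n * y * n) = 0 := by
    have h3 : n * y * n * (n * y * n) = n * y * (n * n) * (y * n) := by noncomm_ring
    rw [h3, hn2, mul_zero, zero_mul]
  have h4 : (1 + n) * y * (1 - n) = y + (n * y - y * n) - n * y * n := by noncomm_ring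
  have h5 : (1 + n) * y * (1 - n) ∈ 𝔥 := by
    rw [h4]
    exact 𝔥.sub_mem (𝔥.add_mem hy (hbr _ hn _ hy)) h1
  have h6 : (1 + n) * y * (1 - n) * ((1 + n) * y * (1 - n)) = 0 := by
    have h7 : (1 + n) * y * (1 - n) * ((1 + n) * y * (1 - n)) =
        (1 + n) * (y * y) * (1 - n) - (1 + n) * y * (n * n) * y * (1 - n) := by noncomm_ring
    rw [h7, hy2, hn2, mul_zero, zero_mul, mul_zero, zero_mul, zero_mul, sub_zero]
  have h7 : n * y - y * n = (1 + n) * y * (1 - n) - y + n * y * n := by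
    rw [h4]
    abel
  rw [h7]
  exact Submodule.add_mem _ (Submodule.sub_mem _ (Submodule.subset_span (Or.inl ⟨h5, h6⟩))
    (Submodule.subset_span (Or.inl ⟨hy, hy2⟩))) (Submodule.subset_span (Or.inl ⟨h1, h2⟩))

theorem qp_span (hbr : ∀ X ∈ 𝔥, ∀ Y ∈ 𝔥, X * Y - Y * X ∈ 𝔥)
    (hsp : ∀ y ∈ 𝔥, ∀ a b, ω (y a) b + ω a (y b) = 0)
    (hirr : ∀ W : Submodule K V, (∀ X ∈ 𝔥, X * X = (1 / 4 : K) • 1 → ∀ u ∈ W, X u ∈ W) →
      W = ⊥ ∨ W = ⊤) : QP ω (Submodule.span K (gens 𝔥)) where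
  br := by
    have key : ∀ x ∈ gens 𝔥, ∀ y ∈ gens 𝔥, x * y - y * x ∈ Submodule.span K (gens 𝔥) := by
      rintro x (⟨hx, hx2⟩ | ⟨hx, hx2⟩) y (⟨hy, hy2⟩ | ⟨hy, hy2⟩)
      · exact adn_mem hbr hx hx2 hy hy2
      · have h1 := adX_mem hbr hy hy2 hx
        have h2 : x * y - y * x = -(y * x - x * y) := by abel
        rw [h2]
        exact Submodule.neg_mem _ h1
      · exact adX_mem hbr hx hx2 hy
      · exact adX_mem hbr hx hx2 hy
    intro x hx y hy
    induction hx using Submodule.span_induction with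
    | mem x hx =>
      induction hy using Submodule.span_induction with
      | mem y hy => exact key x hx y hy
      | zero => rw [mul_zero, zero_mul, sub_zero]; exact Submodule.zero_mem _
      | add a b _ _ ha hb =>
        have h : x * (a + b) - (a + b) * x = (x * a - a * x) + (x * b - b * x) := by noncomm_ring
        rw [h]
        exact Submodule.add_mem _ ha hb
      | smul c a _ ha =>
        rw [mul_smul_comm, smul_mul_assoc, ← smul_sub]
        exact Submodule.smul_mem _ _ ha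
    | zero => rw [mul_zero, zero_mul, sub_zero]; exact Submodule.zero_mem _
    | add a b _ _ ha hb =>
      have h : (a + b) * y - y * (a + b) = (a * y - y * a) + (b * y - y * b) := by noncomm_ring
      rw [h]
      exact Submodule.add_mem _ ha hb
    | smul c a _ ha =>
      rw [mul_smul_comm, smul_mul_assoc, ← smul_sub]
      exact Submodule.smul_mem _ _ ha
  sp := fun y hy => hsp y (gens_le hy)
  gen := by
    refine Submodule.span_mono ?_
    rintro x (⟨hx, hx2⟩ | ⟨hx, hx2⟩)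
    · exact Or.inl ⟨Submodule.subset_span (Or.inl ⟨hx, hx2⟩), hx2⟩
    · exact Or.inr ⟨Submodule.subset_span (Or.inr ⟨hx, hx2⟩), hx2⟩
  irr := fun W hW => hirr W fun X hX hXX =>
    hW X (Submodule.subset_span (Or.inr ⟨hX, hXX⟩)) hXX

/-- A subspace stable under the normaliser is an ideal. -/
theorem ideal_of_conj (hQ : QP ω 𝔮) {𝔨 : Submodule K (Module.End K V)}
    (hc : ∀ g : Nz 𝔮, ∀ y ∈ 𝔨, rN 𝔮 g * y * rN 𝔮 g⁻¹ ∈ 𝔨) :
    ∀ x ∈ 𝔮, ∀ y ∈ 𝔨, x * y - y * x ∈ 𝔨 := by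
  intro x hx y hy
  have hx' := hQ.gen hx
  clear hx
  induction hx' using Submodule.span_induction with
  | mem x hx' =>
    rcases hx' with ⟨hn, hn2⟩ | ⟨hX, hXX⟩
    · have hg : ∀ n ∈ 𝔮, n * n = 0 → (1 + n) * y * (1 - n) ∈ 𝔨 := by
        intro n hn hn2
        have hm : un1 hn2 ∈ Nz 𝔮 := by
          refine ⟨fun x hx => ?_, fun x hx => ?_⟩
          · have h1 : (1 + n) * x * (1 - n) = x + (n * x - x * n) - n * x * n := by noncomm_ring
            change (1 + n) * x * (1 - n) ∈ 𝔮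
            rw [h1]
            exact 𝔮.sub_mem (𝔮.add_mem hx (hQ.br _ hn _ hx)) (sq_mul_mem hQ.br hn hn2 hx)
          · have h1 : (1 - n) * x * (1 + n) = x - (n * x - x * n) - n * x * n := by noncomm_ring
            change (1 - n) * x * (1 + n) ∈ 𝔮
            rw [h1]
            exact 𝔮.sub_mem (𝔮.sub_mem hx (hQ.br _ hn _ hx)) (sq_mul_mem hQ.br hn hn2 hx)
        exact hc ⟨un1 hn2, hm⟩ y hy
      have h1 := hg x hn hn2
      have h2 := hg (-x) (𝔮.neg_mem hn) (by rw [neg_mul_neg, hn2])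
      have h3 : x * y - y * x = (1 / 2 : K) • ((1 + x) * y * (1 - x) -
          (1 + -x) * y * (1 - -x)) := by
        have h4 : (1 + x) * y * (1 - x) - (1 + -x) * y * (1 - -x) =
            (2 : K) • (x * y - y * x) := by
          rw [two_smul]
          noncomm_ring
        rw [h4, smul_smul]
        norm_num
      rw [h3]
      exact 𝔨.smul_mem _ (𝔨.sub_mem h1 h2)
    · obtain ⟨p, hpX⟩ : ∃ p, p = x + (1 / 2 : K) • (1 : Module.End K V) := ⟨_, rfl⟩
      have hpp : p * p = p := by rw [hpX]; exact idem_of hXX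
      have hm : unX hXX ∈ Nz 𝔮 := unX_mem hXX (fun y hy => hQ.br x hX y hy)
      have h1 := hc ⟨unX hXX, hm⟩ y hy
      have h2 := hc ⟨(unX hXX)⁻¹, (Nz 𝔮).inv_mem hm⟩ y hy
      have hv : ((3 / 2 : K) • 1 + x : Module.End K V) = 1 + p := by
        rw [hpX]
        module
      have hi : ((3 / 4 : K) • 1 - (1 / 2 : K) • x : Module.End K V) = 1 - (1 / 2 : K) • p := by
        rw [hpX]
        module
      have h1' : (1 + p) * y * (1 - (1 / 2 : K) • p) ∈ 𝔨 := by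
        rw [← hv, ← hi]
        exact h1
      have h2' : (1 - (1 / 2 : K) • p) * y * (1 + p) ∈ 𝔨 := by
        rw [← hv, ← hi]
        exact h2
      have h4 : (1 - p) * y * p = y * p - p * y * p := by noncomm_ring
      have h5 : p * y * (1 - p) = p * y - p * y * p := by noncomm_ring
      have e1 : (1 + p) * y * (1 - (1 / 2 : K) • p) =
          y + p * y * (1 - p) - (1 / 2 : K) • ((1 - p) * y * p) := by
        have h6 : (1 + p) * y = y + p * y := by noncomm_ring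
        rw [mul_sub, mul_one, mul_smul_comm, h4, h5, h6, add_mul]
        module
      have e2 : (1 - (1 / 2 : K) • p) * y * (1 + p) =
          y - (1 / 2 : K) • (p * y * (1 - p)) + (1 - p) * y * p := by
        rw [mul_add, mul_one, sub_mul, one_mul, smul_mul_assoc, sub_mul, smul_mul_assoc, h4, h5]
        module
      rw [e1] at h1'
      rw [e2] at h2'
      have h6 : x * y - y * x = (2 / 3 : K) • ((y + p * y * (1 - p) -
          (1 / 2 : K) • ((1 - p) * y * p)) - (y - (1 / 2 : K) • (p * y * (1 - p)) +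
            (1 - p) * y * p)) := by
        rw [p_br hpX]
        have h7 : p * y - y * p = p * y * (1 - p) - (1 - p) * y * p := by noncomm_ring
        rw [h7]
        module
      rw [h6]
      exact 𝔨.smul_mem _ (𝔨.sub_mem h1' h2')
  | zero => rw [zero_mul, mul_zero, sub_zero]; exact 𝔨.zero_mem
  | add a b _ _ ha hb =>
    have h : (a + b) * y - y * (a + b) = (a * y - y * a) + (b * y - y * b) := by noncomm_ring
    rw [h]
    exact 𝔨.add_mem ha hb
  | smul c a _ ha =>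
    rw [mul_smul_comm, smul_mul_assoc, ← smul_sub]
    exact 𝔨.smul_mem _ ha

/-- The span of the conjugates. -/
def cspan (𝔮 : Submodule K (Module.End K V)) (e : Module.End K V) :
    Submodule K (Module.End K V) :=
  Submodule.span K (Set.range fun g : Nz 𝔮 => rN 𝔮 g * e * rN 𝔮 g⁻¹)

theorem cspan_le {e : Module.End K V} (he : e ∈ 𝔮) : cspan 𝔮 e ≤ 𝔮 := by
  rw [cspan, Submodule.span_le]
  rintro _ ⟨g, rfl⟩
  exact g.2.1 e he

theorem cspan_conj {e : Module.End K V} (g : Nz 𝔮) {y : Module.End K V} (hy : y ∈ cspan 𝔮 e) :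
    rN 𝔮 g * y * rN 𝔮 g⁻¹ ∈ cspan 𝔮 e := by
  induction hy using Submodule.span_induction with
  | mem y hy =>
    obtain ⟨h, rfl⟩ := hy
    refine Submodule.subset_span ⟨g * h, ?_⟩
    simp only [mul_inv_rev, map_mul, mul_assoc]
  | zero => rw [mul_zero, zero_mul]; exact Submodule.zero_mem _
  | add a b _ _ ha hb => rw [mul_add, add_mul]; exact Submodule.add_mem _ ha hb
  | smul c a _ ha => rw [mul_smul_comm, smul_mul_assoc]; exact Submodule.smul_mem _ _ ha

theorem mem_cspan (e : Module.End K V) : e ∈ cspan 𝔮 e := by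
  refine Submodule.subset_span ⟨1, ?_⟩
  simp

/-- The ideal generated by the elements of degree one and minus one. -/
def ker0 (𝔮 : Submodule K (Module.End K V)) (p : Module.End K V) :
    Submodule K (Module.End K V) :=
  AA 𝔮 p ⊔ AA 𝔮 (1 - p) ⊔
    Submodule.span K {c | ∃ a ∈ AA 𝔮 p, ∃ b ∈ AA 𝔮 (1 - p), c = a * b - b * a}

theorem c0A {p x a : Module.End K V} (hbr : ∀ X ∈ 𝔮, ∀ Y ∈ 𝔮, X * Y - Y * X ∈ 𝔮) (hx : x ∈ 𝔮)
    (hpx : p * x = x * p) (ha : a ∈ AA 𝔮 p) : x * a - a * x ∈ AA 𝔮 p := by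
  refine ⟨hbr _ hx _ ha.1, ?_, ?_⟩
  · have h1 : p * (x * a - a * x) = (p * x) * a - (p * a) * x := by noncomm_ring
    rw [h1, hpx, mul_assoc, ha.2.1]
  · have h1 : (x * a - a * x) * p = x * (a * p) - a * (x * p) := by noncomm_ring
    rw [h1, ← hpx, ← mul_assoc a, ha.2.2, mul_zero, zero_mul, sub_zero]

theorem br_comm {p a b : Module.End K V} (ha : a ∈ AA 𝔮 p) (hb : b ∈ AA 𝔮 (1 - p)) :
    p * (a * b - b * a) = (a * b - b * a) * p := by
  have h1 : p * (a * b - b * a) = (p * a) * b - (p * b) * a := by noncomm_ring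
  have h2 : (a * b - b * a) * p = a * (b * p) - b * (a * p) := by noncomm_ring
  rw [h1, h2, ha.2.1, BB_left hb, BB_right hb, ha.2.2, zero_mul, mul_zero]

theorem grade {p x : Module.End K V} (hpp : p * p = p)
    (hc : ∀ y ∈ 𝔮, p * y * (1 - p) ∈ AA 𝔮 p ∧ (1 - p) * y * p ∈ AA 𝔮 (1 - p)) (hx : x ∈ 𝔮) :
    ∃ u ∈ AA 𝔮 p, ∃ d ∈ AA 𝔮 (1 - p), ∃ y ∈ 𝔮, p * y = y * p ∧ x = u + d + y := by
  obtain ⟨h1, h2⟩ := hc x hx
  refine ⟨_, h1, _, h2, x - p * x * (1 - p) - (1 - p) * x * p,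
    𝔮.sub_mem (𝔮.sub_mem hx h1.1) h2.1, ?_, by abel⟩
  have h3 : p * (x - p * x * (1 - p) - (1 - p) * x * p) = p * x * p := by
    have h4 : p * (x - p * x * (1 - p) - (1 - p) * x * p) =
        p * x - (p * p) * x * (1 - p) - (p - p * p) * x * p := by noncomm_ring
    rw [h4, hpp, sub_self, zero_mul, zero_mul, sub_zero]
    noncomm_ring
  have h5 : (x - p * x * (1 - p) - (1 - p) * x * p) * p = p * x * p := by
    have h4 : (x - p * x * (1 - p) - (1 - p) * x * p) * p =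
        x * p - p * x * (p - p * p) - (1 - p) * x * (p * p) := by noncomm_ring
    rw [h4, hpp, sub_self, mul_zero, sub_zero]
    noncomm_ring
  rw [h3, h5]

theorem ker0_ideal {p : Module.End K V} (hbr : ∀ X ∈ 𝔮, ∀ Y ∈ 𝔮, X * Y - Y * X ∈ 𝔮)
    (hpp : p * p = p)
    (hc : ∀ y ∈ 𝔮, p * y * (1 - p) ∈ AA 𝔮 p ∧ (1 - p) * y * p ∈ AA 𝔮 (1 - p)) :
    ∀ x ∈ 𝔮, ∀ y ∈ ker0 𝔮 p, x * y - y * x ∈ ker0 𝔮 p := by
  have hA : AA 𝔮 p ≤ ker0 𝔮 p := le_sup_of_le_left le_sup_left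
  have hB : AA 𝔮 (1 - p) ≤ ker0 𝔮 p := le_sup_of_le_left le_sup_right
  have hC : ∀ a ∈ AA 𝔮 p, ∀ b ∈ AA 𝔮 (1 - p), a * b - b * a ∈ ker0 𝔮 p := fun a ha b hb =>
    Submodule.mem_sup_right (Submodule.subset_span ⟨a, ha, b, hb, rfl⟩)
  have hC' : ∀ a ∈ AA 𝔮 p, ∀ b ∈ AA 𝔮 (1 - p), b * a - a * b ∈ ker0 𝔮 p := fun a ha b hb => by
    have h1 : b * a - a * b = -(a * b - b * a) := by abel
    rw [h1]
    exact Submodule.neg_mem _ (hC a ha b hb)
  have h0A : ∀ x ∈ 𝔮, p * x = x * p → ∀ a ∈ AA 𝔮 p, x * a - a * x ∈ AA 𝔮 p :=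
    fun x hx hpx a ha => c0A hbr hx hpx ha
  have h0B : ∀ x ∈ 𝔮, p * x = x * p → ∀ b ∈ AA 𝔮 (1 - p), x * b - b * x ∈ AA 𝔮 (1 - p) :=
    fun x hx hpx b hb => c0A hbr hx (by rw [sub_mul, mul_sub, one_mul, mul_one, hpx]) hb
  intro x hx y hy
  obtain ⟨u, hu, d, hd, x₀, hx₀, hpx, rfl⟩ := grade hpp hc hx
  obtain ⟨y₁, hy₁, y₂, hy₂, rfl⟩ := Submodule.mem_sup.1 hy
  obtain ⟨a, ha, b, hb, rfl⟩ := Submodule.mem_sup.1 hy₁
  have e1 : (u + d + x₀) * (a + b + y₂) - (a + b + y₂) * (u + d + x₀) =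
      (u * a - a * u) + (u * b - b * u) + (d * a - a * d) + (d * b - b * d) +
        (x₀ * a - a * x₀) + (x₀ * b - b * x₀) + ((u + d + x₀) * y₂ - y₂ * (u + d + x₀)) := by
    noncomm_ring
  rw [e1, AA_mul hu ha, AA_mul ha hu, AA_mul hd hb, AA_mul hb hd]
  refine Submodule.add_mem _ (Submodule.add_mem _ (Submodule.add_mem _ (Submodule.add_mem _
    (Submodule.add_mem _ (Submodule.add_mem _ ?_ (hC u hu b hb)) (hC' a ha d hd)) ?_)
      (hA (h0A x₀ hx₀ hpx a ha))) (hB (h0B x₀ hx₀ hpx b hb))) ?_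
  · rw [sub_self]; exact Submodule.zero_mem _
  · rw [sub_self]; exact Submodule.zero_mem _
  clear e1 hy hy₁ hx
  induction hy₂ using Submodule.span_induction with
  | mem c hc' =>
    obtain ⟨a, ha, b, hb, rfl⟩ := hc'
    have hcm : a * b - b * a ∈ 𝔮 := hbr _ ha.1 _ hb.1
    have hcp := br_comm ha hb
    have h1 := h0A _ hcm hcp u hu
    have h2 := h0B _ hcm hcp d hd
    have h3 := hC _ (h0A x₀ hx₀ hpx a ha) b hb
    have h4 := hC a ha _ (h0B x₀ hx₀ hpx b hb)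
    have e2 : (u + d + x₀) * (a * b - b * a) - (a * b - b * a) * (u + d + x₀) =
        ((x₀ * a - a * x₀) * b - b * (x₀ * a - a * x₀)) +
          (a * (x₀ * b - b * x₀) - (x₀ * b - b * x₀) * a) -
          ((a * b - b * a) * u - u * (a * b - b * a)) -
          ((a * b - b * a) * d - d * (a * b - b * a)) := by noncomm_ring
    rw [e2]
    exact Submodule.sub_mem _ (Submodule.sub_mem _ (Submodule.add_mem _ h3 h4) (hA h1)) (hB h2)
  | zero => rw [mul_zero, zero_mul, sub_zero]; exact Submodule.zero_mem _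
  | add c c' _ _ h1 h2 =>
    have e2 : (u + d + x₀) * (c + c') - (c + c') * (u + d + x₀) =
        ((u + d + x₀) * c - c * (u + d + x₀)) + ((u + d + x₀) * c' - c' * (u + d + x₀)) := by
      noncomm_ring
    rw [e2]
    exact Submodule.add_mem _ h1 h2
  | smul t c _ h1 =>
    rw [mul_smul_comm, smul_mul_assoc, ← smul_sub]
    exact Submodule.smul_mem _ _ h1

variable (halt : ∀ v, ω v v = 0) (hnd : ∀ u, (∀ v, ω u v = 0) → u = 0)

include halt hnd in
theorem cspan_eq [IsAlgClosed K] (hQ : QP ω 𝔮) {N : Module.End K V} (hN : N ∈ 𝔮)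
    (hN2 : N * N = 0) (hodd : Odd (rk N)) {e : Module.End K V} (he : e ∈ 𝔮) (he0 : e ≠ 0) :
    cspan 𝔮 e = 𝔮 := by
  rcases simple halt hnd hQ hN hN2 hodd (cspan_le he) (ideal_of_conj hQ fun g y hy =>
    cspan_conj g hy) with h | h
  · exfalso
    have h1 := mem_cspan (𝔮 := 𝔮) e
    rw [h, Submodule.mem_bot] at h1
    exact he0 h1
  · exact h

include halt hnd in
/-- A Lie algebra of symplectic operators in which the elements `X` with `X ^ 2 = 1 / 4` act
irreducibly, and which contains a square-zero element of odd rank, contains an element of rank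
one. -/
theorem exists_rank_one_odd [IsAlgClosed K] (hBound : Bound)
    (hbr : ∀ X ∈ 𝔥, ∀ Y ∈ 𝔥, X * Y - Y * X ∈ 𝔥)
    (hsp : ∀ y ∈ 𝔥, ∀ a b, ω (y a) b + ω a (y b) = 0)
    (hirr : ∀ W : Submodule K V, (∀ X ∈ 𝔥, X * X = (1 / 4 : K) • 1 → ∀ u ∈ W, X u ∈ W) →
      W = ⊥ ∨ W = ⊤) {N : Module.End K V} (hN : N ∈ 𝔥) (hN2 : N * N = 0)
    (hodd : Odd (rk N)) : ∃ e ∈ 𝔥, rk e = 1 := by
  have hQ := qp_span hbr hsp hirr
  obtain ⟨𝔮, hq⟩ : ∃ 𝔮, 𝔮 = Submodule.span K (gens 𝔥) := ⟨_, rfl⟩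
  rw [← hq] at hQ
  have hNq : N ∈ 𝔮 := by rw [hq]; exact Submodule.subset_span (Or.inl ⟨hN, hN2⟩)
  have hN0 : N ≠ 0 := by
    rintro rfl
    rw [rk_eq_zero.2 rfl] at hodd
    exact absurd hodd (by decide)
  have hsirr : SIrr (rN 𝔮) := by
    refine Pool.Agent.W125.OT.SIrrT.main K V _ (rN 𝔮) 𝔮 ?_ hQ.irr
    intro X hX hXX
    exact ⟨⟨unX hXX, unX_mem hXX (fun y hy => hQ.br X hX y hy)⟩, rfl⟩
  have hS : Setup (rN 𝔮) 𝔮 := setup_rN (rN 𝔮) hsirr hQ.br (fun g x hx => g.2.1 x hx) ω hnd hQ.sp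
  have hcs := fun e he he0 => cspan_eq halt hnd hQ hNq hN2 hodd (e := e) he he0
  have hCN : ConjIrr (rN 𝔮) N := by
    intro W hW
    refine hQ.irr W fun X hX hXX => ?_
    clear hXX
    rw [← hcs N hNq hN0] at hX
    clear hirr
    induction hX using Submodule.span_induction with
    | mem X hX =>
      obtain ⟨g, rfl⟩ := hX
      exact hW g
    | zero => exact fun u _ => W.zero_mem
    | add a b _ _ ha hb => exact fun u hu => W.add_mem (ha u hu) (hb u hu)
    | smul c a _ ha => exact fun u hu => W.smul_mem _ (ha u hu)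
  have hNO : ∀ e ∈ 𝔮, e * e = 0 → e ≠ 0 → NoOrthOf (rN 𝔮) 𝔮 e := by
    intro e he _ he0 y hy hy0
    have hyq : y ∈ 𝔮 := by
      have h1 : sq 𝔮 ≤ 𝔮 := by
        rw [sq, Submodule.span_le]
        rintro x ⟨hx, -⟩
        exact hx
      exact h1 hy
    have h2 : y ∈ 𝔮 ⊓ orth 𝔮 𝔮 := by
      refine ⟨hyq, hyq, fun z hz => ?_⟩
      rw [← hcs e he he0] at hz
      induction hz using Submodule.span_induction with
      | mem z hz =>
        obtain ⟨g, rfl⟩ := hz
        exact hy0 g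
      | zero => rw [mul_zero, map_zero]
      | add a b _ _ ha hb => rw [mul_add, map_add, ha, hb, add_zero]
      | smul c a _ ha => rw [mul_smul_comm, map_smul, ha, smul_zero]
    rw [inf_orth hnd hQ le_rfl hQ.br, Submodule.mem_bot] at h2
    exact h2
  obtain ⟨X, hX, hXX⟩ : ∃ X ∈ 𝔮, X * X = (1 / 4 : K) • 1 := by
    by_contra hcon
    push Not at hcon
    rcases hQ.irr (LinearMap.ker N) (fun X hX hXX => absurd hXX (hcon X hX)) with h | h
    · apply hN0
      refine LinearMap.ext fun v => ?_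
      have h1 : N v ∈ LinearMap.ker N := by
        rw [LinearMap.mem_ker, ← Module.End.mul_apply, hN2]
        rfl
      rw [h, Submodule.mem_bot] at h1
      exact h1
    · exact hN0 (LinearMap.ker_eq_top.1 h)
  obtain ⟨p, hpX⟩ : ∃ p, p = X + (1 / 2 : K) • (1 : Module.End K V) := ⟨_, rfl⟩
  have hpp : p * p = p := by rw [hpX]; exact idem_of hXX
  obtain ⟨e, he, he0, hmin⟩ := exists_min_rk (AA 𝔮 p)
    (AA_ne_bot hS hX hpX hpp hNq hN2 hN0 hCN hNO)
  have hE : MinE 𝔮 p e := ⟨he, he0, hmin⟩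
  have hextA : ∀ a ∈ AA 𝔮 p, a ≠ 0 → (∀ b ∈ AA 𝔮 p, b ≠ 0 → rk a ≤ rk b) →
      ∀ x ∈ 𝔮, ∃ c : K, a * x * a = c • a := fun a ha ha0 hm x hx =>
    extremal _ ha ha0 hm x (AA_sandwich hQ.br ha hx)
  have hdvd : rk e ∣ rk N := Pool.Agent.W806.OT.DIV.main K V (Nz 𝔮) (rN 𝔮) 𝔮 hS e he.1
    (AA_mul he he) (hextA e he he0 hmin) (hNO e he.1 (AA_mul he he) he0) N hNq hN2
  have hodde : Odd (rk e) := Odd.of_dvd_nat hodd hdvd
  obtain ⟨n, ee, ff, hF, hP, hP', hdim⟩ := frame_full hS hX hpX hpp hNq hN0 hCN hNO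
    Pool.Agent.W327.OT.Half.main ω halt hnd hQ.sp hE hodde
  have hb := hBound K V ω halt hnd Pool.Agent.W327.OT.Half.main 𝔮 p (rk e) n ee ff hpp hQ.br hQ.sp
    hF hP hP' hodde hmin (fun i => hextA (ee i) (hF.eA i)
      (fun h => he0 (rk_eq_zero.1 (by rw [← hF.rke i, h, rk_eq_zero.2 rfl])))
      (fun b hb hb0 => by rw [hF.rke]; exact hmin b hb hb0)) ?_
  · refine ⟨e, gens_le (by rw [← hq]; exact he.1), ?_⟩
    have h1 := rk_pos he0
    have h2 : 0 < finrank K V := nontriv hN0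
    rw [hdim] at hb h2
    have h3 : 0 < 2 * n := Nat.pos_of_mul_pos_right h2
    have h4 : rk e ≤ 1 := by
      by_contra h5
      have h6 : 2 * n * 2 ≤ 2 * n * rk e := Nat.mul_le_mul_left _ (by omega)
      omega
    omega
  · -- irreducibility under the elements of degree one and minus one
    intro W hWA hWB
    have hle : ker0 𝔮 p ≤ 𝔮 := by
      refine sup_le (sup_le (fun x hx => hx.1) (fun x hx => hx.1)) ?_
      rw [Submodule.span_le]
      rintro _ ⟨a, ha, b, hb, rfl⟩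
      exact hQ.br _ ha.1 _ hb.1
    have hid := ker0_ideal hQ.br hpp (fun y hy =>
      ⟨comp_up hQ.br hX hpX hpp hy, comp_down hQ.br hX hpX hpp hy⟩)
    have hker : ker0 𝔮 p = 𝔮 := by
      rcases simple halt hnd hQ hNq hN2 hodd hle hid with h | h
      · exfalso
        have h1 : e ∈ ker0 𝔮 p := Submodule.mem_sup_left (Submodule.mem_sup_left he)
        rw [h, Submodule.mem_bot] at h1
        exact he0 h1
      · exact h
    refine hQ.irr W fun Z hZ hZZ => ?_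
    clear hZZ
    rw [← hker] at hZ
    obtain ⟨y₁, hy₁, y₂, hy₂, rfl⟩ := Submodule.mem_sup.1 hZ
    obtain ⟨a, ha, b, hb, rfl⟩ := Submodule.mem_sup.1 hy₁
    have h2 : ∀ u ∈ W, y₂ u ∈ W := by
      clear hZ
      induction hy₂ using Submodule.span_induction with
      | mem c hc =>
        obtain ⟨a, ha, b, hb, rfl⟩ := hc
        intro u hu
        exact W.sub_mem (hWA a ha _ (hWB b hb u hu)) (hWB b hb _ (hWA a ha u hu))
      | zero => exact fun u _ => W.zero_mem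
      | add c c' _ _ h1 h2 => exact fun u hu => W.add_mem (h1 u hu) (h2 u hu)
      | smul t c _ h1 => exact fun u hu => W.smul_mem _ (h1 u hu)
    intro u hu
    exact W.add_mem (W.add_mem (hWA a ha u hu) (hWB b hb u hu)) (h2 u hu)

end

end Pool.Agent.W528.Odd
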