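import Mathlib
import Pool.Agent.H86.CMLib.W528.Odd.MainO
import Pool.Agent.H86.CMLib.W528.Odd.Core

/-!
# Toric rank prime to the dimension
-/

set_option linter.unusedSectionVars false

namespace Pool.Agent.W528.Odd

open Module Pool.Agent.H204R3.SP Pool.Agent.H204R3.GP Pool.Agent.W522.U Pool.Agent.W529.Ta
open Pool.Agent.W528.Tor (AltDual)

noncomputable section

variable {K : Type} [Field K] [CharZero K] {X : Type} [AddCommGroup X] [Module K X]
  [FiniteDimensional K X] {Γ : Type} [Group Γ] {R : Representation K Γ X} {χ : Γ →* K}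

theorem sIrr_res {U : Submodule K X} (hU : SI R U) (Δ : Subgroup Γ) (hΔ : Δ.FiniteIndex)
    (hUΔ : ∀ g ∈ Δ, ∀ u ∈ U, R g u ∈ U) : SIrr (resR R Δ U hUΔ) := by
  intro Δ' hΔ' W hW
  have h1 : Pot R (W.map U.subtype) := by
    refine ⟨Δ'.map Δ.subtype, fi_map hΔ Δ' hΔ', ?_⟩
    rintro _ ⟨g, hg, rfl⟩ _ ⟨u, hu, rfl⟩
    exact ⟨resR R Δ U hUΔ g u, hW g hg u hu, rfl⟩
  rcases hU.2.2 _ (Submodule.map_subtype_le _ _) h1 with h2 | h2
  · left
    rw [eq_bot_iff]
    intro u hu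
    have h3 : (u : X) ∈ W.map U.subtype := ⟨u, hu, rfl⟩
    rw [h2, Submodule.mem_bot] at h3
    rw [Submodule.mem_bot]
    exact Subtype.ext h3
  · right
    rw [eq_top_iff]
    intro u _
    have h3 : (u : X) ∈ W.map U.subtype := by
      rw [h2]
      exact u.2
    obtain ⟨u', hu', huu⟩ := h3
    have h4 : u' = u := Subtype.ext huu
    rw [← h4]
    exact hu'

theorem rk_res {U : Submodule K X} {Y : Module.End K U} {x : Module.End K X}
    (h : ∀ u : U, ((Y u : U) : X) = x u) : rk Y = finrank K (U.map x) := by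
  have h1 : (LinearMap.range Y).map U.subtype = U.map x := by
    apply le_antisymm
    · rintro _ ⟨_, ⟨u, rfl⟩, rfl⟩
      exact ⟨u, u.2, (h u).symm⟩
    · rintro _ ⟨u, hu, rfl⟩
      exact ⟨Y ⟨u, hu⟩, ⟨⟨u, hu⟩, rfl⟩, h ⟨u, hu⟩⟩
  rw [← h1]
  exact (LinearEquiv.finrank_eq (Submodule.equivMapOfInjective U.subtype
    U.subtype_injective (LinearMap.range Y)))

theorem sq_res {U : Submodule K X} {Y : Module.End K U} {x : Module.End K X}
    (h : ∀ u : U, ((Y u : U) : X) = x u) (c : K) (hx : x * x = c • 1) : Y * Y = c • 1 := by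
  refine LinearMap.ext fun u => ?_
  apply Subtype.ext
  rw [Module.End.mul_apply, h, h, ← Module.End.mul_apply, hx]
  rfl

theorem exists_ne {U : Submodule K X} {x : Module.End K X} (h : U.map x ≠ ⊥) :
    ∃ u ∈ U, x u ≠ 0 := by
  by_contra hcon
  push Not at hcon
  apply h
  rw [eq_bot_iff]
  rintro _ ⟨u, hu, rfl⟩
  rw [Submodule.mem_bot]
  exact hcon u hu

theorem map_ne_bot_of_coprime {U : Submodule K X} {x : Module.End K X} (h2 : 2 ≤ finrank K U)
    (hcop : Nat.Coprime (finrank K (U.map x)) (finrank K U)) : U.map x ≠ ⊥ := by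
  intro h
  rw [h, finrank_bot, Nat.coprime_zero_left] at hcop
  omega

theorem coreProp_coprime [IsAlgClosed K] (ω : X →ₗ[K] X →ₗ[K] K)
    (hnd : ∀ u, (∀ v, ω u v = 0) → u = 0)
    (hωR : ∀ g u v, ω (R g u) (R g v) = χ g * ω u v) {U : Submodule K X} (hU : SI R U)
    (h2 : 2 ≤ finrank K U) {x₀ : Module.End K X} (hx₀ : x₀ ∈ lieT R χ)
    (hxx : x₀ * x₀ = (1 / 4 : K) • 1) {γ : Γ} (hγ : (R γ - 1) * (R γ - 1) = 0)
    (hcop : Nat.Coprime (finrank K (U.map (R γ - 1))) (finrank K U)) : CoreProp R χ U := by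
  intro Δ hΔ hUΔ 𝔥 om halt hnd' hsim hbr hconj hsp hlie
  obtain ⟨x, hx, hx0⟩ := exists_ne (map_ne_bot_of_coprime h2 hcop)
  have hχ : χ γ = 1 := unip_chi ω hnd hωR γ hγ hx0
  obtain ⟨Y, hY, hYx⟩ := hlie _ hx₀
  obtain ⟨N, hN, hNx⟩ := hlie _ (unip_lieT R χ γ hγ hχ)
  refine odd_core (𝔥 := 𝔥) (resR R Δ U hUΔ) (χ.comp Δ.subtype) (sIrr_res hU Δ hΔ hUΔ) hbr hconj om
    halt hnd' hsim hsp hN ?_ ?_ hY (sq_res hYx _ hxx) h2
  · have h3 := sq_res hNx 0 (by rw [hγ, zero_smul])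
    rw [h3, zero_smul]
  · rw [rk_res hNx]
    exact hcop

/-- For every strongly irreducible subspace `U` of dimension at least two there is an element `γ`
of the group with `(γ - 1) ^ 2 = 0` such that the rank of `γ - 1` on `U` is one, or it is prime to
the dimension of `U` and `U` is self-dual with an alternating pairing. -/
def HasCoprimeUnipotents (R : Representation K Γ X) (χ : Γ →* K) : Prop :=
  ∀ U, SI R U → 2 ≤ finrank K U → ∃ γ : Γ, (R γ - 1) * (R γ - 1) = 0 ∧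
    (finrank K (U.map (R γ - 1)) = 1 ∨
      (Nat.Coprime (finrank K (U.map (R γ - 1))) (finrank K U) ∧ AltDual R χ U))

theorem main_coprime [IsAlgClosed K] (ω : X →ₗ[K] X →ₗ[K] K)
    (hnd : ∀ u, (∀ v, ω u v = 0) → u = 0)
    (hωR : ∀ g u v, ω (R g u) (R g v) = χ g * ω u v)
    {x₀ : Module.End K X} (hx₀ : x₀ ∈ lieT R χ) (hxx : x₀ * x₀ = (1 / 4 : K) • 1)
    (hcu : HasCoprimeUnipotents R χ) (hR2 : LinesNotSelfDual R χ) (hH : TwistFree R χ)
    (hD : DetIndependent R χ) (hss : HasProj R)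
    {m : ℕ} (φ : MultilinearMap K (fun _ : Fin m × Fin 2 => X) K) (hφ : IsTate R χ m φ) :
    φ ∈ Submodule.span K (PT R χ m) := by
  refine main_X3 ω hnd hωR ?_ hss hR2 hH hD φ hφ
  intro U hU h2
  obtain ⟨γ, hγ, hr | ⟨hcop, halt⟩⟩ := hcu U hU h2
  · exact ⟨γ, hγ, Or.inl hr⟩
  · exact ⟨γ, hγ, Or.inr ⟨map_ne_bot_of_coprime h2 hcop, halt,
      coreProp_coprime ω hnd hωR hU h2 hx₀ hxx hγ hcop⟩⟩

end

end Pool.Agent.W528.Odd
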