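import Mathlib
import Pool.Agent.H86.CMLib.W522.U.C7
import Pool.Agent.H86.CMLib.W522.U.C9

/-!
# The Hodge-Tate element on the strongly irreducible subspaces: statement
-/

namespace Pool.Agent.W528.Odd

open Module Pool.Agent.H204R3.SP Pool.Agent.H204R3.GP Pool.Agent.W522.U

/-- HTF.  An element of the Lie algebra that kills the Tate forms restricts to a family of
operators on pairwise non-isomorphic strongly irreducible subspaces that kills the Tate forms of
their direct sum. -/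
def HTFam : Prop :=
  ∀ (K : Type) [Field K] [CharZero K] (X : Type) [AddCommGroup X] [Module K X]
    [FiniteDimensional K X] (Γ : Type) [Group Γ] (R : Representation K Γ X) (χ : Γ →* K)
    (ω : X →ₗ[K] X →ₗ[K] K), (∀ u, (∀ v, ω u v = 0) → u = 0) →
    (∀ g u v, ω (R g u) (R g v) = χ g * ω u v) → HasProj R →
    ∀ (s : ℕ) (W : Fin s → Submodule K X), (∀ i, SI R (W i)) →
    (∀ i j, Tw R (fun _ => 1) (W i) (W j) → i = j) →
    ∀ Δ : Subgroup Γ, Δ.FiniteIndex → ∀ hWΔ : (∀ i, ∀ g ∈ Δ, ∀ u ∈ W i, R g u ∈ W i),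
    ∀ x₀ ∈ lieT R χ, ∃ Y ∈ hh (fun i => resR R Δ (W i) (hWΔ i)) (χ.comp Δ.subtype),
      ∀ i (u : W i), ((Y i u : W i) : X) = x₀ u

end Pool.Agent.W528.Odd
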